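import Pool.Agent.Lib.MP_688fd0_co.TF.H82.Reg4fb

/-! # Theorem F, REG4F, conclusion (after TE/H2/Reg4c) -/

namespace Pool.Agent.Lib.MP_688fd0_co.TF.H82

universe u v w

open Pool.Agent.Lib.MP_688fd0_co.TE Pool.Agent.Lib.MP_688fd0_co.TE.H2

section numeric

variable {G : Type u} [Group G] [Fintype G] [DecidableEq G] (c : Ctx G)

/-- Numerical facts on `b ^ (1/8)`. -/
lemma beta (hN : NUMF_S.{u}) : ∃ β : ℝ, β = c.b ^ (1 / 8 : ℝ) ∧ 0 < β ∧ β ^ 8 = c.b ∧
    c.X ^ 25000 ≤ β := by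
  obtain ⟨hX, -, -, -, -, -, hb, hXb, -⟩ := hN G c
  have hX0 : 0 ≤ c.X := le_trans (by norm_num) hX
  have h8 : (c.b ^ (1 / 8 : ℝ)) ^ 8 = c.b := by
    rw [← Real.rpow_natCast, ← Real.rpow_mul hb.le]
    norm_num
  refine ⟨c.b ^ (1 / 8 : ℝ), rfl, Real.rpow_pos_of_pos hb _, h8, ?_⟩
  have h1 : (c.X ^ 25000) ^ 8 ≤ (c.b ^ (1 / 8 : ℝ)) ^ 8 := by
    rw [h8, ← pow_mul]
    exact hXb
  exact le_of_pow_le_pow_left₀ (by norm_num) (Real.rpow_nonneg hb.le _) h1

end numeric

theorem reg4f.{u'} (hMCD : MCD_S.{u', 0}) (hB : BASIC_S.{u', u'}) (hP : PIPR_S.{u', 0})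
    (hMat : MAT_S.{u'}) (hN : NUMF_S.{u'}) (hPK : PKSF_S.{u'}) : REG4F_S.{u'} := by
  intro G _ _ _ c N g m _ hN4 hmOK
  obtain ⟨hX, -, -, -, -, -, hb, hXb, hbG, -, -, -, -, -, hexp, -⟩ := hN G c
  obtain ⟨β, hβ, hβ0, hβ8, hβX⟩ := beta c hN
  obtain ⟨hm1, hm2⟩ := hmOK
  have hX1 : (1 : ℝ) ≤ c.X := le_trans (by norm_num) hX
  have hX0 : (0 : ℝ) < c.X := lt_of_lt_of_le one_pos hX1
  have hXm : c.X ≤ m := by
    have : c.X ^ 1 ≤ c.X ^ 1000 := pow_le_pow_right₀ hX1 (by norm_num)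
    rw [pow_one] at this
    exact this.trans hm1
  have hm4 : (4 : ℝ) ≤ m := by linarith
  have hm0 : (0 : ℝ) < m := by linarith
  have hmN : 4 ≤ m := by exact_mod_cast hm4
  set d : ℝ := 1 / β with hd
  have hd0 : 0 < d := by positivity
  -- distinct levels
  haveI : Fact (1 < m) := ⟨by omega⟩
  have h10 : (1 : ZMod m) ≠ 0 := by
    haveI : Nontrivial (ZMod m) := ZMod.nontrivial m
    exact one_ne_zero
  -- light
  obtain ⟨-, -, -, hBas, -, -, hmul, hmono, hB1, -, -⟩ := hPK G c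
  have hBP : c.PK 1 (UM c.B) := hBas _ (Or.inl rfl)
  have hl1 : ∀ z, ∑ x, ind (W1 g x) * UM c.B z x ≤ c.del true := fun z =>
    g.light true _ (hmono 1 N _ (by omega) hB1) z
  have hl2 : ∀ z, ∑ x, ind (W1 g x) * (UM c.B * UM c.B) z x ≤ c.del true := fun z =>
    g.light true _ (hmono (1 + 1) N _ (by omega) (hmul 1 1 _ _ hB1 hBP).1) z
  -- the weights
  set ψ : ZMod m → ℝ := fun i => 1 / c.X ^ 100 * ind (i = 0) with hψ
  have hψ0 : ∀ i, 0 ≤ ψ i := fun i => mul_nonneg (by positivity) (ind_nonneg _)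
  have hψ1 : ∀ i, ψ i ≤ 1 := by
    intro i
    have h1 : 1 / c.X ^ 100 ≤ 1 := by
      rw [div_le_one (by positivity)]
      exact one_le_pow₀ hX1
    calc ψ i ≤ 1 / c.X ^ 100 * 1 := mul_le_mul_of_nonneg_left (ind_le_one _) (by positivity)
      _ ≤ 1 := by rw [mul_one]; exact h1
  have hdel0 : 0 ≤ c.del true := by
    unfold Ctx.del; simp only [if_true]; positivity
  set FR : ZMod m → G → (G ⊕ (G × G) → ZMod m) → ℝ := fun i z lam => g.Pr (g.lev lam) i z with hFR
  set FC : ZMod m → G → (G ⊕ (G × G) → ZMod m) → ℝ := fun i z lam => g.Pc (g.lev lam) i z with hFC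
  have eR : ∀ i z, FR i z = Phi (kap g) (fun x => UM c.B z x * ind (g.RR x))
      (wt g g.CC (fun l => l = i + 1 ∨ l = i + 2) (ψ i) 1) i := fun i z =>
    funext fun lam => Pr_eq g i z lam
  have eC : ∀ i z, FC i z = Phi (kap g) (fun x => UM c.B z x * ind (g.CC x))
      (wt g g.RR (fun l => l = i ∨ l = i - 1) (ψ i) 0) (i + 1) := fun i z =>
    funext fun lam => Pc_eq g i z lam
  have hi12 : ∀ i : ZMod m, i + 1 ≠ i + 2 := by
    intro i h
    apply h10
    linear_combination -h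
  have hi01 : ∀ i : ZMod m, i ≠ i - 1 := by
    intro i h
    apply h10
    linear_combination h
  have mR : ∀ i z, |Ex (unifW (G ⊕ (G × G) → ZMod m)) (FR i z) - P00 g m g.RR g.CC z| ≤
      ψ i / (m : ℝ) ^ 2 + ind ((0 : ZMod m) = i + 1 ∨ (0 : ZMod m) = i + 2) * c.del true +
        ind (i = 0) * c.del true := by
    intro i z
    rw [eR]
    exact mean g hP hMat g.RR g.CC (fun l => l = i + 1 ∨ l = i + 2) (i + 1) (i + 2) (hi12 i)
      (fun l => Iff.rfl) (ψ i) (hψ0 i) 1 i z (fun x => RR_none g) (fun x => CC_none g) hb _ hl1 hl2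
  have mC : ∀ i z, |Ex (unifW (G ⊕ (G × G) → ZMod m)) (FC i z) - P00 g m g.CC g.RR z| ≤
      ψ i / (m : ℝ) ^ 2 + ind ((0 : ZMod m) = i ∨ (0 : ZMod m) = i - 1) * c.del true +
        ind (i + 1 = 0) * c.del true := by
    intro i z
    rw [eC]
    exact mean g hP hMat g.CC g.RR (fun l => l = i ∨ l = i - 1) i (i - 1) (hi01 i)
      (fun l => Iff.rfl) (ψ i) (hψ0 i) 0 (i + 1) z (fun x => CC_none g) (fun x => RR_none g)
      hb _ hl1 hl2
  -- the exceptional error
  have hexc : ∀ i : ZMod m, ∀ p q : Prop, ψ i / (m : ℝ) ^ 2 + ind p * c.del true +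
      ind q * c.del true + d ≤ 1 / c.X ^ 1090 := by
    intro i p q
    have a1 : ψ i / (m : ℝ) ^ 2 ≤ 1 / c.X ^ 1091 := by
      refine div_le_div₀ zero_le_one (hψ1 i) (by positivity) ?_
      calc c.X ^ 1091 ≤ c.X ^ 2000 := pow_le_pow_right₀ hX1 (by norm_num)
        _ = (c.X ^ 1000) ^ 2 := by rw [← pow_mul]
        _ ≤ (m : ℝ) ^ 2 := pow_le_pow_left₀ (by positivity) hm1 2
    have a2 : c.del true ≤ 1 / c.X ^ 1091 := by
      unfold Ctx.del
      simp only [if_true]
      exact div_le_div_of_nonneg_left zero_le_one (by positivity)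
        (pow_le_pow_right₀ hX1 (by norm_num))
    have a3 : d ≤ 1 / c.X ^ 1091 := by
      refine div_le_div_of_nonneg_left zero_le_one (by positivity) ?_
      exact (pow_le_pow_right₀ hX1 (by norm_num)).trans hβX
    have a4 : ind p * c.del true ≤ 1 / c.X ^ 1091 :=
      (mul_le_of_le_one_left hdel0 (ind_le_one _)).trans a2
    have a5 : ind q * c.del true ≤ 1 / c.X ^ 1091 :=
      (mul_le_of_le_one_left hdel0 (ind_le_one _)).trans a2
    have a6 : 4 * (1 / c.X ^ 1091) ≤ 1 / c.X ^ 1090 := by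
      rw [pow_succ c.X 1090]
      have : 1 / (c.X ^ 1090 * c.X) = 1 / c.X ^ 1090 * (1 / c.X) := by
        field_simp
      rw [this]
      have h5 : 4 * (1 / c.X) ≤ 1 := by
        rw [mul_one_div, div_le_one hX0]; linarith
      have h6 : 0 ≤ 1 / c.X ^ 1090 := by positivity
      nlinarith
    linarith
  -- the event
  set Ev : Bool × ZMod m × G → (G ⊕ (G × G) → ZMod m) → Prop := fun p lam =>
    if p.1 then d ≤ |FR p.2.1 p.2.2 lam - Ex (unifW (G ⊕ (G × G) → ZMod m)) (FR p.2.1 p.2.2)|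
    else d ≤ |FC p.2.1 p.2.2 lam - Ex (unifW (G ⊕ (G × G) → ZMod m)) (FC p.2.1 p.2.2)| with hEv
  have himp : ∀ lam, ¬ g.e4 (g.lev lam) → ∃ p, Ev p lam := by
    intro lam hne
    by_contra hcon
    push Not at hcon
    apply hne
    have cR : ∀ i z, |FR i z lam - Ex (unifW (G ⊕ (G × G) → ZMod m)) (FR i z)| < d := by
      intro i z
      have := hcon (true, i, z)
      simpa [hEv] using this
    have cC : ∀ i z, |FC i z lam - Ex (unifW (G ⊕ (G × G) → ZMod m)) (FC i z)| < d := by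
      intro i z
      have := hcon (false, i, z)
      simpa [hEv] using this
    have hdβ : d = 1 / c.b ^ (1 / 8 : ℝ) := by rw [hd, hβ]
    constructor
    · refine ⟨P00 g m g.RR g.CC, fun z i => ⟨?_, ?_⟩⟩
      · have h1 := cR i z
        have h2 := mR i z
        have h3 := hexc i ((0 : ZMod m) = i + 1 ∨ (0 : ZMod m) = i + 2) (i = 0)
        change |FR i z lam - _| ≤ _
        have h4 := abs_sub_le (FR i z lam) (Ex (unifW (G ⊕ (G × G) → ZMod m)) (FR i z))
          (P00 g m g.RR g.CC z)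
        linarith
      · intro i0 i1 i2
        have h1 := cR i z
        have h2 := mR i z
        have h5 : ¬ ((0 : ZMod m) = i + 1 ∨ (0 : ZMod m) = i + 2) := by
          rintro (h | h)
          · exact i1 (by linear_combination -h)
          · exact i2 (by linear_combination -h)
        have h6 : ψ i = 0 := by rw [hψ]; dsimp only; rw [ind_not i0, mul_zero]
        rw [ind_not h5, ind_not i0, h6] at h2
        simp only [zero_div, zero_mul, add_zero] at h2
        change |FR i z lam - _| ≤ _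
        have h4 := abs_sub_le (FR i z lam) (Ex (unifW (G ⊕ (G × G) → ZMod m)) (FR i z))
          (P00 g m g.RR g.CC z)
        rw [← hdβ]
        linarith
    · refine ⟨P00 g m g.CC g.RR, fun z i => ⟨?_, ?_⟩⟩
      · have h1 := cC i z
        have h2 := mC i z
        have h3 := hexc i ((0 : ZMod m) = i ∨ (0 : ZMod m) = i - 1) (i + 1 = 0)
        change |FC i z lam - _| ≤ _
        have h4 := abs_sub_le (FC i z lam) (Ex (unifW (G ⊕ (G × G) → ZMod m)) (FC i z))
          (P00 g m g.CC g.RR z)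
        linarith
      · intro i0 i1 i2
        have h1 := cC i z
        have h2 := mC i z
        have h5 : ¬ ((0 : ZMod m) = i ∨ (0 : ZMod m) = i - 1) := by
          rintro (h | h)
          · exact i0 h.symm
          · exact i1 (by linear_combination -h)
        have h7 : ¬ (i + 1 = 0) := fun h => i2 (by linear_combination h)
        have h6 : ψ i = 0 := by rw [hψ]; dsimp only; rw [ind_not i0, mul_zero]
        rw [ind_not h5, ind_not h7, h6] at h2
        simp only [zero_div, zero_mul, add_zero] at h2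
        change |FC i z lam - _| ≤ _
        have h4 := abs_sub_le (FC i z lam) (Ex (unifW (G ⊕ (G × G) → ZMod m)) (FC i z))
          (P00 g m g.CC g.RR z)
        rw [← hdβ]
        linarith
  -- probabilities
  have hexpX : Real.exp (-(d ^ 2 * c.b / (16 * (m : ℝ) ^ 2))) ≤ Real.exp (-c.X) := by
    apply Real.exp_le_exp.2
    apply neg_le_neg
    rw [le_div_iff₀ (by positivity)]
    have h1 : d ^ 2 * c.b = β ^ 6 := by
      rw [← hβ8, hd]
      field_simp
    rw [h1]
    have h2 : (m : ℝ) ^ 2 ≤ 4 * c.X ^ 2000 := by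
      calc (m : ℝ) ^ 2 ≤ (2 * c.X ^ 1000) ^ 2 := pow_le_pow_left₀ hm0.le hm2 2
        _ = 4 * c.X ^ 2000 := by rw [mul_pow, ← pow_mul]; norm_num
    calc c.X * (16 * (m : ℝ) ^ 2) ≤ c.X * (16 * (4 * c.X ^ 2000)) := by gcongr
      _ = 64 * (c.X * c.X ^ 2000) := by ring
      _ ≤ c.X * (c.X * c.X ^ 2000) := by
          apply mul_le_mul_of_nonneg_right _ (by positivity)
          linarith
      _ = c.X ^ 2002 := by
          rw [← pow_succ', ← pow_succ']
      _ ≤ c.X ^ 25000 := pow_le_pow_right₀ hX1 (by norm_num)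
      _ ≤ β := hβX
      _ = β ^ 1 := (pow_one β).symm
      _ ≤ β ^ 6 := pow_le_pow_right₀ ((one_le_pow₀ hX1).trans hβX) (by norm_num)
  have hprob : ∀ p, Pr (unifW (G ⊕ (G × G) → ZMod m)) (Ev p) ≤ 2 * Real.exp (-c.X) := by
    rintro ⟨s, i, z⟩
    cases s with
    | true =>
      have h := Phi_dev g hMCD hMat g.RR g.CC (fun l => l = i + 1 ∨ l = i + 2) (ψ i) (hψ0 i)
        (hψ1 i) 1 i z hb hm4 d hd0
      rw [← eR i z] at h
      have h2 : Ev (true, i, z) = fun lam => d ≤ |FR i z lam -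
          Ex (unifW (G ⊕ (G × G) → ZMod m)) (FR i z)| := by
        funext lam; simp [hEv]
      rw [h2]
      exact h.trans (mul_le_mul_of_nonneg_left hexpX (by norm_num))
    | false =>
      have h := Phi_dev g hMCD hMat g.CC g.RR (fun l => l = i ∨ l = i - 1) (ψ i) (hψ0 i)
        (hψ1 i) 0 (i + 1) z hb hm4 d hd0
      rw [← eC i z] at h
      have h2 : Ev (false, i, z) = fun lam => d ≤ |FC i z lam -
          Ex (unifW (G ⊕ (G × G) → ZMod m)) (FC i z)| := by
        funext lam; simp [hEv]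
      rw [h2]
      exact h.trans (mul_le_mul_of_nonneg_left hexpX (by norm_num))
  have hPrU : IsPr (unifW (G ⊕ (G × G) → ZMod m)) := isPr_unifW _
  obtain ⟨b1, b2, -⟩ := hB (ULift.{u'} (G ⊕ (G × G) → ZMod m)) (fun p => unifW _ p.down)
    ⟨fun ω => hPrU.nn _, by
      rw [← hPrU.one]
      exact Fintype.sum_equiv Equiv.ulift _ _ (fun _ => rfl)⟩
  have htr : ∀ E : (G ⊕ (G × G) → ZMod m) → Prop,
      Pr (fun p : ULift.{u'} (G ⊕ (G × G) → ZMod m) => unifW (G ⊕ (G × G) → ZMod m) p.down)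
        (fun p => E p.down) = Pr (unifW (G ⊕ (G × G) → ZMod m)) E := by
    intro E
    unfold Pr
    exact Fintype.sum_equiv Equiv.ulift _ _ (fun _ => rfl)
  have hle : Pr (unifW (G ⊕ (G × G) → ZMod m)) (fun lam => ¬ g.e4 (g.lev lam)) ≤
      ∑ p : Bool × ZMod m × G, Pr (unifW (G ⊕ (G × G) → ZMod m)) (Ev p) := by
    rw [← htr]
    refine (b1 _ (fun p => ∃ q, Ev q p.down) fun ω h => himp _ h).trans ?_
    refine (b2 (Bool × ZMod m × G) (fun q p => Ev q p.down)).trans (le_of_eq ?_)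
    exact Finset.sum_congr rfl fun p _ => htr (Ev p)
  refine hle.trans ((Finset.sum_le_sum fun p _ => hprob p).trans ?_)
  rw [Finset.sum_const, nsmul_eq_mul, Finset.card_univ]
  simp only [Fintype.card_prod, Fintype.card_bool, ZMod.card]
  push_cast
  have hG4 : (4 : ℝ) ≤ Fintype.card G := by
    have : c.X ^ 1 ≤ c.X ^ 200000 := pow_le_pow_right₀ hX1 (by norm_num)
    rw [pow_one] at this
    linarith
  have hmG : (m : ℝ) ≤ Fintype.card G := by
    refine hm2.trans (le_trans ?_ (hXb.trans hbG))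
    calc 2 * c.X ^ 1000 ≤ c.X * c.X ^ 1000 := by
          apply mul_le_mul_of_nonneg_right _ (by positivity)
          linarith
      _ = c.X ^ 1001 := by rw [← pow_succ']
      _ ≤ c.X ^ 200000 := pow_le_pow_right₀ hX1 (by norm_num)
  have hG0 : (0 : ℝ) < Fintype.card G := by linarith
  have hE := hexp c.X le_rfl
  rw [le_div_iff₀ (by positivity)]
  set n : ℝ := (Fintype.card G : ℝ) with hn
  have hEx0 := Real.exp_pos (-c.X)
  calc 2 * ((m : ℝ) * n) * (2 * Real.exp (-c.X)) * n ^ 2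
      ≤ 2 * (n * n) * (2 * Real.exp (-c.X)) * n ^ 2 := by gcongr
    _ = 4 * (Real.exp (-c.X) * n ^ 4) := by ring
    _ ≤ n * (Real.exp (-c.X) * n ^ 4) := by
        apply mul_le_mul_of_nonneg_right hG4 (by positivity)
    _ = Real.exp (-c.X) * n ^ 5 := by ring
    _ ≤ Real.exp (-c.X) * n ^ 1000 := by
        apply mul_le_mul_of_nonneg_left _ hEx0.le
        exact pow_le_pow_right₀ (by linarith) (by norm_num)
    _ ≤ 1 := hE

end Pool.Agent.Lib.MP_688fd0_co.TF.H82
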