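import Pool.Agent.Lib.MP_688fd0_co.TF.H82.GadfC

/-! Module GADF (after TE/H9/Gad). -/

namespace Pool.Agent.Lib.MP_688fd0_co.TF.H82

universe u v w

open Finset Pool.Agent.Lib.MP_688fd0_co.TE Pool.Agent.Lib.MP_688fd0_co.TE.H9

variable {G : Type u} [Group G] [Fintype G] [DecidableEq G]

/-- A good choice of options. -/
theorem choice (hnum : NUMF_S.{u}) (hpipr : PIPR_S.{0, u}) (hpipr' : PIPR_S.{u, u})
    (hupd : UPD_S.{u, u}) (hpks : PKSF_S.{u}) (hglaw : GLAWF_S.{u}) (hchern : CHERN_S.{u, u})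
    (c : Ctx G) {N : ℕ} (hN : 2 ≤ N) (hN' : N ≤ 38) (R : Resv c (N + 2)) :
    ∃ ω : Idx c R → Blk c, (∀ i t, c.Γ i.1 i.2.1 (ω i t) ≠ 0) ∧ ¬ Ab c N R ω ∧
      ∀ i, ∃ t, Vd c (Sb c R i ω) (ω i t) := by
  classical
  obtain ⟨n1, n2, n3, n6, n4, n7, n8, n9, n10, m1, m2, m3, n11, n12, n13, n14⟩ := hnum G c
  obtain ⟨k1, k2, k3, k5, k7, k8, k9, k10, k11, k12, k14⟩ := hpks G c
  have hX0 : 0 < c.X := by linarith [show (0 : ℝ) < 10 ^ 6 by norm_num]
  have hX1 : 1 ≤ c.X := by linarith [show (1 : ℝ) < 10 ^ 6 by norm_num]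
  set n : ℝ := (Fintype.card G : ℝ) with hn
  have hXn : c.X ≤ n := by
    have h1 : c.X ≤ c.X ^ 200000 := le_self_pow₀ hX1 (by norm_num)
    linarith
  have hn6 : (10 ^ 6 : ℝ) ≤ n := n1.trans hXn
  have hn0 : 0 < n := by linarith [show (0 : ℝ) < 10 ^ 6 by norm_num]
  have hn1 : 1 ≤ n := by linarith [show (1 : ℝ) < 10 ^ 6 by norm_num]
  have hpr : IsPr (piW (bw c R)) := hpipr'.1 (Idx c R) (fun _ => Blk c) (bw c R)
    (bw_pr hpipr hglaw c R)
  obtain ⟨m, f, hm, hf1, hf2⟩ := k14 N (by omega)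
  -- tests
  have hA : Pr (piW (bw c R)) (Ab c N R) ≤ 1 / n ^ 10 := by
    have h1 := Pr_le_sum (piW (bw c R)) hpr.nn (Ab c N R)
      (fun (q : Bool × Fin m × G) ω => c.del q.1 / 2 ≤ Fl c R q.1 (fun x => f q.2.1 q.2.2 x) ω) (by
      rintro ω ⟨τ, K, y, hK, h⟩
      obtain ⟨a, rfl⟩ := hf2 K hK
      exact ⟨(τ, a, y), h⟩)
    refine h1.trans ?_
    refine (Finset.sum_le_sum fun q _ => test_le hnum hpipr hpks hglaw hchern c R q.1 (f q.2.1)
      (hf1 q.2.1) q.2.2).trans ?_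
    rw [Finset.sum_const, Finset.card_univ, nsmul_eq_mul, Fintype.card_prod, Fintype.card_prod,
      Fintype.card_fin, Fintype.card_bool]
    push_cast
    rw [← hn, mul_one_div, div_le_div_iff₀ (by positivity) (by positivity), one_mul]
    have h2 : (2 : ℝ) * (m * n) ≤ n * (n ^ 150 * n) := by
      apply mul_le_mul _ _ (by positivity) hn0.le
      · linarith [show (2 : ℝ) ≤ 10 ^ 6 by norm_num]
      · exact mul_le_mul_of_nonneg_right hm hn0.le
    calc (2 : ℝ) * (m * n) * n ^ 10 ≤ n * (n ^ 150 * n) * n ^ 10 :=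
          mul_le_mul_of_nonneg_right h2 (by positivity)
      _ = n ^ 162 := by ring
      _ ≤ n ^ 1000 := pow_le_pow_right₀ hn1 (by norm_num)
  -- one R-edge
  have hB : ∀ i : Idx c R, Pr (piW (bw c R)) (fun ω => ¬ Ab c N R ω ∧
      ∀ t, ¬ Vd c (Sb c R i ω) (ω i t)) ≤ 1 / n ^ 20 := by
    intro i
    apply hupd.2 (Idx c R) (fun _ => Blk c) (bw c R) (bw_pr hpipr hglaw c R) _ i
    intro ω
    by_cases hex : ∃ a0, ¬ Ab c N R (Function.update ω i a0)
    · obtain ⟨a0, ha0⟩ := hex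
      have hlight : ∀ (K : Matrix G G ℝ), c.TK 2 K → ∀ y, ∑ x, ind (Sb c R i ω x) * K y x ≤
          1 / c.X ^ 20 := fun K hK y => Sb_light hnum hpks c hN R i ω a0 ha0 K hK y
      have hSb : ∀ a, Sb c R i (Function.update ω i a) = Sb c R i ω := by
        intro a
        funext x
        unfold Sb
        congr 1
        apply propext
        constructor
        · rintro ⟨j, hj, t, p, hp⟩
          rw [Function.update_of_ne hj] at hp
          exact ⟨j, hj, t, p, hp⟩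
        · rintro ⟨j, hj, t, p, hp⟩
          refine ⟨j, hj, t, p, ?_⟩
          rw [Function.update_of_ne hj]
          exact hp
      have h1 : Pr (bw c R i) (fun a => ¬ Ab c N R (Function.update ω i a) ∧
          ∀ t, ¬ Vd c (Sb c R i (Function.update ω i a)) (Function.update ω i a i t)) ≤
          Pr (bw c R i) (fun a => ∀ t, ¬ Vd c (Sb c R i ω) (a t)) := by
        apply Pr_mono _ (bw_pr hpipr hglaw c R i).nn
        rintro a ⟨_, h⟩ t
        have := h t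
        rw [hSb, Function.update_self] at this
        exact this
      refine h1.trans ?_
      have h2 := Pr_all hpipr (c.Γ i.1 i.2.1) c.T (fun γ => ¬ Vd c (Sb c R i ω) γ)
      have h3 : Pr (bw c R i) (fun a => ∀ t, ¬ Vd c (Sb c R i ω) (a t)) =
          Pr (c.Γ i.1 i.2.1) (fun γ => ¬ Vd c (Sb c R i ω) γ) ^ c.T := h2
      rw [h3]
      have h4 := bad_le hnum hpks hglaw c R i (Sb c R i ω) hlight
      have h5 : 0 ≤ Pr (c.Γ i.1 i.2.1) (fun γ => ¬ Vd c (Sb c R i ω) γ) :=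
        Pr_nonneg _ ((hglaw G c i.1).1 _ (R.lett _ _ i.2.2)).nn _
      calc Pr (c.Γ i.1 i.2.1) (fun γ => ¬ Vd c (Sb c R i ω) γ) ^ c.T ≤ (1 / c.X ^ 3) ^ c.T :=
            pow_le_pow_left₀ h5 h4 _
        _ = 1 / c.X ^ (3 * c.T) := by
            rw [div_pow, one_pow, ← pow_mul]
        _ ≤ 1 / n ^ 20 := one_div_le_one_div_of_le (by positivity) n12
    · have : Pr (bw c R i) (fun a => ¬ Ab c N R (Function.update ω i a) ∧
          ∀ t, ¬ Vd c (Sb c R i (Function.update ω i a)) (Function.update ω i a i t)) = 0 := by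
        unfold Pr
        apply Finset.sum_eq_zero
        intro a _
        rw [ind_not (fun h => hex ⟨a, h.1⟩), mul_zero]
      rw [this]
      positivity
  -- union
  have hcard : (Fintype.card (Idx c R) : ℝ) ≤ 2 * n ^ 2 := by
    rw [Fintype.card_sigma, Fintype.sum_bool]
    have h1 : ∀ τ, Fintype.card {e : G × G // e ∈ R.E τ} ≤ Fintype.card G * Fintype.card G := by
      intro τ
      rw [← Fintype.card_prod]
      exact Fintype.card_le_of_injective _ Subtype.val_injective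
    have h2 := add_le_add (h1 true) (h1 false)
    have h3 : ((Fintype.card {e : G × G // e ∈ R.E true} +
        Fintype.card {e : G × G // e ∈ R.E false} : ℕ) : ℝ) ≤
        ((Fintype.card G * Fintype.card G + Fintype.card G * Fintype.card G : ℕ) : ℝ) := by
      exact_mod_cast h2
    refine h3.trans (le_of_eq ?_)
    push_cast
    rw [hn]
    ring
  have hall : Pr (piW (bw c R)) (fun ω => Ab c N R ω ∨ ∃ i, ∀ t, ¬ Vd c (Sb c R i ω) (ω i t)) <
      1 := by
    have h1 : Pr (piW (bw c R)) (fun ω => Ab c N R ω ∨ ∃ i, ∀ t,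
        ¬ Vd c (Sb c R i ω) (ω i t)) ≤ Pr (piW (bw c R)) (Ab c N R) +
        Pr (piW (bw c R)) (fun ω => ∃ i, ¬ Ab c N R ω ∧ ∀ t,
        ¬ Vd c (Sb c R i ω) (ω i t)) := by
      apply Pr_or _ hpr.nn
      rintro ω (h | ⟨i, h⟩)
      · exact Or.inl h
      · by_cases ha : Ab c N R ω
        · exact Or.inl ha
        · exact Or.inr ⟨i, ha, h⟩
    have h2 := Pr_le_sum (piW (bw c R)) hpr.nn (fun ω => ∃ i, ¬ Ab c N R ω ∧ ∀ t,
        ¬ Vd c (Sb c R i ω) (ω i t)) (fun i ω => ¬ Ab c N R ω ∧ ∀ t,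
        ¬ Vd c (Sb c R i ω) (ω i t)) (fun _ h => h)
    have h3 : ∑ i : Idx c R, Pr (piW (bw c R)) (fun ω => ¬ Ab c N R ω ∧ ∀ t,
        ¬ Vd c (Sb c R i ω) (ω i t)) ≤ 2 * n ^ 2 * (1 / n ^ 20) := by
      refine (Finset.sum_le_sum fun i _ => hB i).trans ?_
      rw [Finset.sum_const, Finset.card_univ, nsmul_eq_mul]
      exact mul_le_mul_of_nonneg_right hcard (by positivity)
    have h4 : 2 * n ^ 2 * (1 / n ^ 20) ≤ 1 / 4 := by
      have : 2 * n ^ 2 * (1 / n ^ 20) = 2 / n ^ 18 := by field_simp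
      rw [this, div_le_div_iff₀ (by positivity) (by norm_num)]
      have : n ≤ n ^ 18 := le_self_pow₀ hn1 (by norm_num)
      linarith [show (8 : ℝ) ≤ 10 ^ 6 by norm_num]
    have h5 : 1 / n ^ 10 ≤ 1 / 4 := by
      rw [div_le_div_iff₀ (by positivity) (by norm_num)]
      have : n ≤ n ^ 10 := le_self_pow₀ hn1 (by norm_num)
      linarith [show (8 : ℝ) ≤ 10 ^ 6 by norm_num]
    linarith
  -- a good outcome
  have hgood : ∃ ω, 0 < piW (bw c R) ω ∧ ¬ (Ab c N R ω ∨ ∃ i, ∀ t,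
      ¬ Vd c (Sb c R i ω) (ω i t)) := by
    by_contra hc
    push Not at hc
    have h1 : Pr (piW (bw c R)) (fun ω => Ab c N R ω ∨ ∃ i, ∀ t,
        ¬ Vd c (Sb c R i ω) (ω i t)) = 1 := by
      rw [← hpr.one]
      unfold Pr
      refine Finset.sum_congr rfl fun ω _ => ?_
      rcases (hpr.nn ω).lt_or_eq with h | h
      · rw [ind_of (hc ω h), mul_one]
      · rw [← h, zero_mul]
    linarith
  obtain ⟨ω, hω1, hω2⟩ := hgood
  push Not at hω2
  refine ⟨ω, ?_, hω2.1, ?_⟩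
  · intro i t h
    have h1 : piW (bw c R) ω = 0 := by
      unfold piW
      apply Finset.prod_eq_zero (Finset.mem_univ i)
      unfold bw piW
      exact Finset.prod_eq_zero (Finset.mem_univ t) h
    linarith
  · intro i
    obtain ⟨t, ht⟩ := hω2.2 i
    exact ⟨t, ht⟩

theorem gadf (hnum : NUMF_S.{u}) (hpipr : PIPR_S.{0, u}) (hpipr' : PIPR_S.{u, u})
    (hupd : UPD_S.{u, u}) (hpks : PKSF_S.{u}) (hglaw : GLAWF_S.{u}) (hchern : CHERN_S.{u, u})
    (habs : ABSF_S.{u}) (hres : RESF_S.{u}) : GADF_S.{u} := by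
  classical
  intro G _ _ _ c N0 hN1 hN38
  obtain ⟨n1, n2, n3, n6, n4, n7, n8, n9, n10, m1, m2, m3, n11, n12, n13, n14⟩ := hnum G c
  obtain ⟨k1, k2, k3, k5, k7, k8, k9, k10, k11, k12, k14⟩ := hpks G c
  have hX0 : 0 < c.X := by linarith [show (0 : ℝ) < 10 ^ 6 by norm_num]
  have hX1 : 1 ≤ c.X := by linarith [show (1 : ℝ) < 10 ^ 6 by norm_num]
  set N := max N0 2 with hNdef
  have hN0N : N0 ≤ N := le_max_left _ _
  have hN2 : 2 ≤ N := le_max_right _ _
  have hN38' : N ≤ 38 := max_le hN38 (by norm_num)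
  obtain ⟨R⟩ := hres G c (N + 2) (by omega) (by omega)
  obtain ⟨ω, w1, w2, w3⟩ := choice hnum hpipr hpipr' hupd hpks hglaw hchern c hN2 hN38' R
  choose tt ht using w3
  have hV : ∀ i : Idx c R, Function.Injective (c.vx (ω i (tt i))) := fun i => (ht i).1
  have hV2 : ∀ (i : Idx c R) p, ¬ Sb c R i ω (c.vx (ω i (tt i)) p) := fun i => (ht i).2
  have hab := fun i : Idx c R => habs G c i.1 i.2.1 (ω i (tt i)) (R.lett _ _ i.2.2) (w1 i (tt i))
    (hV i) (fun p => ⟨fun h => hV2 i p (Or.inl ⟨i, Or.inl h⟩),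
      fun h => hV2 i p (Or.inl ⟨i, Or.inr h⟩)⟩)
  choose Pa Pn hPP using hab
  -- the reservoir
  let R0 : Resv c N0 := {
    E := R.E
    Rl := R.Rl
    lett := R.lett
    disj := R.disj
    light := fun τ M hM y => R.light τ M (k10 N0 (N + 2) M (by omega) hM) y
    law := R.law
    supp := R.supp
    r2 := R.r2
    r3 := R.r3 }
  refine ⟨{
    res := R0
    Vs := fun τ e => if h : e ∈ R.E τ then insert e.1 (insert e.2 (Finset.univ.image
      (c.vx (ω ⟨τ, e, h⟩ (tt ⟨τ, e, h⟩))))) else ∅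
    i := fun τ e => if h : e ∈ R.E τ then c.cy (ω ⟨τ, e, h⟩ (tt ⟨τ, e, h⟩)) 1 else 1
    o := fun τ e => if h : e ∈ R.E τ then c.cy (ω ⟨τ, e, h⟩ (tt ⟨τ, e, h⟩)) 3 else 1
    Pa := fun τ e => if h : e ∈ R.E τ then Pa ⟨τ, e, h⟩ else []
    Pn := fun τ e => if h : e ∈ R.E τ then Pn ⟨τ, e, h⟩ else []
    ok := ?_
    disj := ?_
    light := ?_ }⟩
  · intro τ e he
    have he' : e ∈ R.E τ := he
    simp only [dif_pos he']
    exact hPP ⟨τ, e, he'⟩
  · intro τ τ' e e' he he' hne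
    have h1 : e ∈ R.E τ := he
    have h1' : e' ∈ R.E τ' := he'
    simp only [dif_pos h1, dif_pos h1']
    rw [Finset.disjoint_left]
    intro x hx hx'
    simp only [Finset.mem_insert, Finset.mem_image, Finset.mem_univ, true_and] at hx hx'
    obtain ⟨d1, d2, d3, d4⟩ := R.disj τ τ' e e' h1 h1' hne
    have hij : (⟨τ', e', h1'⟩ : Idx c R) ≠ ⟨τ, e, h1⟩ := by
      intro h
      apply hne
      have h5 := congrArg (fun i : Idx c R => (i.1, i.2.1)) h
      exact h5.symm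
    rcases hx with hx | hx | ⟨p, hp⟩
    · rcases hx' with hx' | hx' | ⟨p', hp'⟩
      · exact d1 (hx.symm.trans hx')
      · exact d2 (hx.symm.trans hx')
      · exact hV2 ⟨τ', e', h1'⟩ p' (Or.inl ⟨⟨τ, e, h1⟩, Or.inl (hp'.trans hx)⟩)
    · rcases hx' with hx' | hx' | ⟨p', hp'⟩
      · exact d3 (hx.symm.trans hx')
      · exact d4 (hx.symm.trans hx')
      · exact hV2 ⟨τ', e', h1'⟩ p' (Or.inl ⟨⟨τ, e, h1⟩, Or.inr (hp'.trans hx)⟩)
    · rcases hx' with hx' | hx' | ⟨p', hp'⟩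
      · exact hV2 ⟨τ, e, h1⟩ p (Or.inl ⟨⟨τ', e', h1'⟩, Or.inl (hp.trans hx')⟩)
      · exact hV2 ⟨τ, e, h1⟩ p (Or.inl ⟨⟨τ', e', h1'⟩, Or.inr (hp.trans hx')⟩)
      · exact hV2 ⟨τ, e, h1⟩ p (Or.inr ⟨⟨τ', e', h1'⟩, hij, _, p', hp'.trans hp.symm⟩)
  · intro τ K hK y
    have hK0 : ∀ v, 0 ≤ K y v := fun v => (k7 N0 K hK.1).nn _ _
    have hKN : c.TK N K := k10 N0 N K hN0N hK
    have hKN2 : c.TK (N + 2) K := k10 N0 (N + 2) K (by omega) hK
    unfold Ab at w2
    push Not at w2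
    have hF := (w2 τ K y hKN).le
    have h1 := cov (κ := ({e : G × G // e ∈ R.E τ} × Bool) ⊕
        ({e : G × G // e ∈ R.E τ} × Fin c.T × c.Pos))
      (fun w => ∃ e ∈ R.E τ, w ∈ (if h : e ∈ R.E τ then insert e.1 (insert e.2 (Finset.univ.image
      (c.vx (ω ⟨τ, e, h⟩ (tt ⟨τ, e, h⟩))))) else ∅))
      (fun _ => 1)
      (Sum.elim (fun q => if q.2 then q.1.1.1 else q.1.1.2)
        (fun q => c.vx (ω ⟨τ, q.1⟩ q.2.1) q.2.2))
      (fun x => K y x) (fun _ => zero_le_one) hK0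
      (by
        rintro x ⟨e, he, hx⟩
        rw [dif_pos he] at hx
        simp only [Finset.mem_insert, Finset.mem_image, Finset.mem_univ, true_and] at hx
        rcases hx with hx | hx | ⟨p, hp⟩
        · exact ⟨Sum.inl (⟨e, he⟩, true), le_rfl, by simp [hx]⟩
        · exact ⟨Sum.inl (⟨e, he⟩, false), le_rfl, by simp [hx]⟩
        · exact ⟨Sum.inr (⟨e, he⟩, tt ⟨τ, e, he⟩, p), le_rfl, by simpa using hp⟩)
    refine h1.trans ?_
    rw [Fintype.sum_sum_type]
    simp only [Sum.elim_inl, Sum.elim_inr, one_mul]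
    have h2 : ∑ q : {e : G × G // e ∈ R.E τ} × Bool, K y (if q.2 then q.1.1.1 else q.1.1.2) ≤
        c.X * (2 * c.ζ τ) := by
      rw [Fintype.sum_prod_type]
      have := R.light τ K hKN2 y
      rw [← Finset.sum_coe_sort] at this
      refine le_trans (le_of_eq ?_) this
      refine Finset.sum_congr rfl fun e _ => ?_
      rw [Fintype.sum_bool]
      simp
    have h3 : ∑ q : {e : G × G // e ∈ R.E τ} × Fin c.T × c.Pos,
        K y (c.vx (ω ⟨τ, q.1⟩ q.2.1) q.2.2) = Fl c R τ (fun x => K y x) ω := by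
      rw [Fintype.sum_prod_type]
      unfold Fl
      refine Finset.sum_congr rfl fun e _ => ?_
      rw [Fintype.sum_prod_type]
    rw [h3]
    have h4 : c.X * (2 * c.ζ τ) ≤ c.del τ / 2 := by
      rw [del_eq c hX0]
      have h5 := zeta_pos' c hX0 τ
      have h6 : (10 : ℝ) ^ 6 * c.X ≤ c.X ^ 10 := by
        rw [show c.X ^ 10 = c.X ^ 9 * c.X by ring]
        apply mul_le_mul_of_nonneg_right _ hX0.le
        exact n1.trans (le_self_pow₀ hX1 (by norm_num))
      have h7 : 4 * c.X ≤ c.X ^ 10 := by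
        linarith
      nlinarith
    linarith

end Pool.Agent.Lib.MP_688fd0_co.TF.H82
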