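import Pool.Agent.Lib.MP_688fd0_co.TF.Iface4
import Pool.Agent.Lib.MP_688fd0_co.TE.H9.GadB

/-! Module GADF, first part: options of the R-edges (after TE/H9/GadA). -/

namespace Pool.Agent.Lib.MP_688fd0_co.TF.H82

universe u v w

open Finset Pool.Agent.Lib.MP_688fd0_co.TE Pool.Agent.Lib.MP_688fd0_co.TE.H9

variable {G : Type u} [Group G] [Fintype G] [DecidableEq G]

/-- Indices: R-edges with their kind. -/
abbrev Idx (c : Ctx G) {N : ℕ} (R : Resv c N) : Type u := (τ : Bool) × {e : G × G // e ∈ R.E τ}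

/-- One block of options. -/
abbrev Blk (c : Ctx G) : Type u := Fin c.T → c.Cfg

/-- Weights of one block. -/
noncomputable def bw (c : Ctx G) {N : ℕ} (R : Resv c N) (i : Idx c R) : Blk c → ℝ :=
  piW (fun _ : Fin c.T => c.Γ i.1 i.2.1)

/-- Load of the options of kind `τ`. -/
noncomputable def Fl (c : Ctx G) {N : ℕ} (R : Resv c N) (τ : Bool) (h : G → ℝ)
    (ω : Idx c R → Blk c) : ℝ :=
  ∑ e : {e : G × G // e ∈ R.E τ}, ∑ t, ∑ p, h (c.vx (ω ⟨τ, e⟩ t) p)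

theorem Fl_eq (c : Ctx G) {N : ℕ} (R : Resv c N) (τ : Bool) (h : G → ℝ)
    (ω : Idx c R → Blk c) :
    Fl c R τ h ω = ∑ i : Idx c R, ind (i.1 = τ) * ∑ t, ∑ p, h (c.vx (ω i t) p) := by
  rw [Fintype.sum_sigma, Finset.sum_eq_single τ]
  · unfold Fl
    refine Finset.sum_congr rfl fun e _ => ?_
    rw [ind_of rfl, one_mul]
  · intro b _ hb
    refine Finset.sum_eq_zero fun e _ => ?_
    rw [ind_not hb, zero_mul]
  · intro h
    exact absurd (Finset.mem_univ _) h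

theorem card_pos_le (c : Ctx G) (hk : 1 ≤ c.k) : Fintype.card c.Pos ≤ 30 * c.k ^ 2 := by
  have h : Fintype.card c.Pos = 6 * c.k + 2 + ((3 * c.k - 1) * (6 * c.k + 2) + (6 * c.k - 1)) := by
    simp [Ctx.Pos, Fintype.card_sum, Fintype.card_prod]
  rw [h]
  obtain ⟨k, hk'⟩ : ∃ k, c.k = k + 1 := ⟨c.k - 1, by omega⟩
  rw [hk']
  have h1 : 3 * (k + 1) - 1 = 3 * k + 2 := by omega
  have h2 : 6 * (k + 1) - 1 = 6 * k + 5 := by omega
  rw [h1, h2]
  nlinarith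

theorem TP_le (hnum : NUMF_S.{u}) (c : Ctx G) :
    (c.T : ℝ) * Fintype.card c.Pos ≤ c.X ∧ (Fintype.card c.Pos : ℝ) ^ 2 ≤ c.X := by
  obtain ⟨n1, n2, n3, n6, n4, n7, n8, n9, n10, m1, m2, m3, n11, n12, n13, n14⟩ := hnum G c
  have hX1 : 1 ≤ c.X := by linarith [show (1 : ℝ) < 10 ^ 6 by norm_num]
  have hX0 : 0 < c.X := by linarith
  have hk0 : 1 ≤ c.k := le_trans (by norm_num) n6
  have hk1 : (1 : ℝ) ≤ c.k := by exact_mod_cast hk0
  have hT1 : (1 : ℝ) ≤ c.T := by exact_mod_cast c.hT1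
  have hP : (Fintype.card c.Pos : ℝ) ≤ 30 * (c.k : ℝ) ^ 2 := by
    exact_mod_cast card_pos_le c hk0
  have hP0 : (0 : ℝ) ≤ Fintype.card c.Pos := Nat.cast_nonneg _
  have a1 : (10 ^ 6 * (c.k : ℝ)) ^ 4 ≤ c.X := by
    refine le_trans ?_ n2
    apply pow_le_pow_right₀ _ (by norm_num)
    linarith
  have a2 : (10 ^ 6 * (c.k : ℝ)) ^ 200 ≤ c.X := n2
  have a3 : (10 ^ 6 * (c.T : ℝ)) ^ 200 ≤ c.X := n3
  constructor
  · -- T * P squared is at most X ^ 2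
    have h1 : ((c.T : ℝ)) ^ 2 ≤ c.X := by
      refine le_trans ?_ a3
      have : (c.T : ℝ) ^ 2 ≤ (10 ^ 6 * c.T) ^ 2 := by
        apply pow_le_pow_left₀ (by linarith)
        linarith
      refine this.trans ?_
      apply pow_le_pow_right₀ _ (by norm_num)
      linarith
    have h2 : (Fintype.card c.Pos : ℝ) ^ 2 ≤ c.X := by
      calc (Fintype.card c.Pos : ℝ) ^ 2 ≤ (30 * (c.k : ℝ) ^ 2) ^ 2 := pow_le_pow_left₀ hP0 hP 2
        _ ≤ (10 ^ 6 * (c.k : ℝ)) ^ 4 := by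
            have : (10 ^ 6 * (c.k : ℝ)) ^ 4 = 10 ^ 24 * (c.k : ℝ) ^ 4 := by ring
            rw [this]
            have h4 : 0 ≤ (c.k : ℝ) ^ 4 := by positivity
            nlinarith
        _ ≤ c.X := a1
    have h3 : ((c.T : ℝ) * Fintype.card c.Pos) ^ 2 ≤ c.X ^ 2 := by
      rw [mul_pow, sq c.X]
      apply mul_le_mul h1 h2 (by positivity) hX0.le
    exact (pow_le_pow_iff_left₀ (by positivity) hX0.le (by norm_num)).1 h3
  · calc (Fintype.card c.Pos : ℝ) ^ 2 ≤ (30 * (c.k : ℝ) ^ 2) ^ 2 := pow_le_pow_left₀ hP0 hP 2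
      _ ≤ (10 ^ 6 * (c.k : ℝ)) ^ 4 := by
          have : (10 ^ 6 * (c.k : ℝ)) ^ 4 = 10 ^ 24 * (c.k : ℝ) ^ 4 := by ring
          rw [this]
          have h4 : 0 ≤ (c.k : ℝ) ^ 4 := by positivity
          nlinarith
      _ ≤ c.X := a1

end Pool.Agent.Lib.MP_688fd0_co.TF.H82
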