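import Pool.Agent.Lib.MP_688fd0_co.TF.H82.GadfA

/-! Module GADF, second part: probabilities (after TE/H9/GadB). -/

namespace Pool.Agent.Lib.MP_688fd0_co.TF.H82

universe u v w

open Finset Pool.Agent.Lib.MP_688fd0_co.TE Pool.Agent.Lib.MP_688fd0_co.TE.H9

variable {G : Type u} [Group G] [Fintype G] [DecidableEq G]

theorem del_eq (c : Ctx G) (hX : 0 < c.X) (τ : Bool) : c.del τ = c.X ^ 10 * c.ζ τ := by
  unfold Ctx.del Ctx.ζ
  split
  · rw [show c.X ^ 3000 = c.X ^ 10 * c.X ^ 2990 by ring]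
    field_simp
  · rw [show c.X ^ 400 = c.X ^ 10 * c.X ^ 390 by ring]
    field_simp

theorem zeta_pos' (c : Ctx G) (hX : 0 < c.X) (τ : Bool) : 0 < c.ζ τ := by
  unfold Ctx.ζ
  split <;> positivity

theorem ten_le (c : Ctx G) (hX : (10 ^ 6 : ℝ) ≤ c.X) : (10 : ℝ) ≤ 4 * c.X ^ 2 := by
  have : (10 ^ 6 : ℝ) * 10 ^ 6 ≤ c.X * c.X := mul_le_mul hX hX (by norm_num) (by linarith)
  nlinarith

/-- The mean of the load. -/
theorem mean_le (hnum : NUMF_S.{u}) (hpipr : PIPR_S.{0, u}) (hpks : PKSF_S.{u}) (hglaw : GLAWF_S.{u})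
    (c : Ctx G) {N : ℕ} (R : Resv c (N + 2)) (τ : Bool) (K : Matrix G G ℝ) (hK : c.TK N K)
    (y : G) :
    ∑ i : Idx c R, Ex (bw c R i)
      (fun a => ind (i.1 = τ) * ∑ t, ∑ p, K y (c.vx (a t) p)) ≤ c.del τ / 4 := by
  obtain ⟨n1, n2, n3, n6, n4, n7, n8, n9, n10, m1, m2, m3, n11, n12, n13, n14⟩ := hnum G c
  obtain ⟨k1, k2, k3, k5, k7, k8, k9, k10, k11, k12, k14⟩ := hpks G c
  obtain ⟨tp1, tp2⟩ := TP_le hnum c
  have hX0 : 0 < c.X := by linarith [show (0 : ℝ) < 10 ^ 6 by norm_num]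
  have hK0 : ∀ v, 0 ≤ K y v := fun v => (k7 N K hK.1).nn _ _
  choose Np sd hNp1 hNp3 using (hglaw G c τ).2.1
  have hNp2 : ∀ p : c.Pos, ∀ e : G × G, e.1⁻¹ * e.2 ∈ Lt c.B c.C τ → ∀ v,
      Pr (c.Γ τ e) (fun γ => c.vx γ p = v) ≤
        4 * c.X ^ 2 * Np p (if sd p then e.1 else e.2) v := by
    intro p e he v
    refine (hNp3 p e he v).trans ?_
    apply mul_le_mul_of_nonneg_right (ten_le c n1)
    exact (k7 2 (Np p) (hNp1 p).1).nn _ _
  set Q : c.Pos → Matrix G G ℝ := fun p => K * (Np p).transpose with hQ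
  have hQTK : ∀ p, c.TK (N + 2) (Q p) := fun p =>
    (k9 N 2 K _ hK (k8 2 _ (hNp1 p)).1).1
  have hQ0 : ∀ p x, 0 ≤ Q p y x := fun p x => (k7 _ _ (hQTK p).1).nn _ _
  have step : ∀ i : Idx c R, Ex (bw c R i)
      (fun a => ind (i.1 = τ) * ∑ t, ∑ p, K y (c.vx (a t) p)) ≤
      ind (i.1 = τ) * (c.T * ∑ p, 4 * c.X ^ 2 * (Q p y i.2.1.1 + Q p y i.2.1.2)) := by
    rintro ⟨τ', e, he⟩
    by_cases hτ : τ' = τ
    · subst hτ
      have hlet := R.lett _ e he
      have hpr : IsPr (c.Γ τ' e) := (hglaw G c τ').1 e hlet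
      rw [Ex_mul]
      apply mul_le_mul_of_nonneg_left _ (ind_nonneg _)
      rw [Ex_sum]
      have : ∀ t : Fin c.T, Ex (bw c R ⟨τ', e, he⟩) (fun a => ∑ p, K y (c.vx (a t) p)) ≤
          ∑ p, 4 * c.X ^ 2 * (Q p y e.1 + Q p y e.2) := by
        intro t
        rw [Ex_sum]
        refine Finset.sum_le_sum fun p _ => ?_
        have e1 : Ex (bw c R ⟨τ', e, he⟩) (fun a => K y (c.vx (a t) p)) =
            Ex (c.Γ τ' e) (fun γ => K y (c.vx γ p)) :=
          Ex_coord hpipr (fun _ : Fin c.T => c.Γ τ' e) (fun _ => hpr) t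
            (fun γ => K y (c.vx γ p))
        rw [e1, Ex_vertex (c.Γ τ' e) (fun γ => c.vx γ p) (fun x => K y x)]
        calc ∑ x, K y x * Pr (c.Γ τ' e) (fun γ => c.vx γ p = x)
            ≤ ∑ x, K y x * (4 * c.X ^ 2 * Np p (if sd p then e.1 else e.2) x) :=
              Finset.sum_le_sum fun x _ => mul_le_mul_of_nonneg_left (hNp2 p e hlet x) (hK0 x)
          _ = 4 * c.X ^ 2 * Q p y (if sd p then e.1 else e.2) := by
              rw [hQ]
              simp only [Matrix.mul_apply, Matrix.transpose_apply]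
              rw [Finset.mul_sum]
              exact Finset.sum_congr rfl fun x _ => by ring
          _ ≤ _ := by
              apply mul_le_mul_of_nonneg_left _ (by positivity)
              split
              · linarith [hQ0 p e.2]
              · linarith [hQ0 p e.1]
      refine (Finset.sum_le_sum fun t _ => this t).trans (le_of_eq ?_)
      rw [Finset.sum_const, Finset.card_univ, Fintype.card_fin, nsmul_eq_mul]
    · rw [ind_not hτ]
      simp [Ex]
  refine (Finset.sum_le_sum fun i _ => step i).trans ?_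
  rw [Fintype.sum_sigma, Finset.sum_eq_single τ]
  · have e1 : ∀ e : {e : G × G // e ∈ R.E τ}, ind (τ = τ) * (c.T * ∑ p, 4 * c.X ^ 2 *
        (Q p y e.1.1 + Q p y e.1.2)) = (c.T * ∑ p, 4 * c.X ^ 2 * (Q p y e.1.1 + Q p y e.1.2)) := by
      intro e
      rw [ind_of rfl, one_mul]
    rw [Finset.sum_congr rfl fun e _ => e1 e, ← Finset.mul_sum, Finset.sum_comm]
    have e2 : ∀ p : c.Pos, ∑ e : {e : G × G // e ∈ R.E τ}, 4 * c.X ^ 2 *
        (Q p y e.1.1 + Q p y e.1.2) ≤ 4 * c.X ^ 2 * (c.X * (2 * c.ζ τ)) := by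
      intro p
      rw [← Finset.mul_sum]
      apply mul_le_mul_of_nonneg_left _ (by positivity)
      have := R.light τ (Q p) (hQTK p) y
      rw [← Finset.sum_coe_sort] at this
      exact this
    calc (c.T : ℝ) * ∑ p, ∑ e : {e : G × G // e ∈ R.E τ}, 4 * c.X ^ 2 *
          (Q p y e.1.1 + Q p y e.1.2)
        ≤ (c.T : ℝ) * ∑ p : c.Pos, 4 * c.X ^ 2 * (c.X * (2 * c.ζ τ)) := by
          apply mul_le_mul_of_nonneg_left _ (Nat.cast_nonneg _)
          exact Finset.sum_le_sum fun p _ => e2 p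
      _ = (c.T * Fintype.card c.Pos) * (4 * c.X ^ 2 * (c.X * (2 * c.ζ τ))) := by
          rw [Finset.sum_const, Finset.card_univ, nsmul_eq_mul]
          ring
      _ ≤ c.X * (4 * c.X ^ 2 * (c.X * (2 * c.ζ τ))) := by
          apply mul_le_mul_of_nonneg_right tp1
          have := zeta_pos' c hX0 τ
          positivity
      _ = (8 * c.X ^ 4) * c.ζ τ := by ring
      _ ≤ (c.X ^ 10 / 4) * c.ζ τ := by
          apply mul_le_mul_of_nonneg_right _ (zeta_pos' c hX0 τ).le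
          have h1 : (10 : ℝ) ^ 6 * c.X ^ 4 ≤ c.X ^ 6 * c.X ^ 4 := by
            apply mul_le_mul_of_nonneg_right _ (by positivity)
            refine n1.trans (le_self_pow₀ ?_ (by norm_num))
            linarith [show (1 : ℝ) < 10 ^ 6 by norm_num]
          have h2 : c.X ^ 10 = c.X ^ 6 * c.X ^ 4 := by ring
          have h3 : 0 ≤ c.X ^ 4 := by positivity
          rw [h2]
          linarith
      _ = c.del τ / 4 := by
          rw [del_eq c hX0]
          ring
  · intro b _ hb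
    refine Finset.sum_eq_zero fun e _ => ?_
    rw [ind_not hb, zero_mul]
  · intro h
    exact absurd (Finset.mem_univ _) h

theorem bw_pr (hpipr : PIPR_S.{0, u}) (hglaw : GLAWF_S.{u}) (c : Ctx G) {N : ℕ} (R : Resv c N)
    (i : Idx c R) : IsPr (bw c R i) :=
  hpipr.1 (Fin c.T) (fun _ => c.Cfg) (fun _ => c.Γ i.1 i.2.1)
    (fun _ => (hglaw G c i.1).1 _ (R.lett _ _ i.2.2))

/-- One test. -/
theorem test_le (hnum : NUMF_S.{u}) (hpipr : PIPR_S.{0, u}) (hpks : PKSF_S.{u})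
    (hglaw : GLAWF_S.{u}) (hchern : CHERN_S.{u, u})
    (c : Ctx G) {N : ℕ} (R : Resv c (N + 2)) (τ : Bool) (K : Matrix G G ℝ) (hK : c.TK N K)
    (y : G) : Pr (piW (bw c R)) (fun ω => c.del τ / 2 ≤ Fl c R τ (fun x => K y x) ω) ≤
      1 / (Fintype.card G : ℝ) ^ 1000 := by
  obtain ⟨n1, n2, n3, n6, n4, n7, n8, n9, n10, m1, m2, m3, n11, n12, n13, n14⟩ := hnum G c
  obtain ⟨k1, k2, k3, k5, k7, k8, k9, k10, k11, k12, k14⟩ := hpks G c
  obtain ⟨tp1, tp2⟩ := TP_le hnum c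
  have hX0 : 0 < c.X := by linarith [show (0 : ℝ) < 10 ^ 6 by norm_num]
  have hX1 : 1 ≤ c.X := by linarith [show (1 : ℝ) < 10 ^ 6 by norm_num]
  have hK0 : ∀ v, 0 ≤ K y v := fun v => (k7 N K hK.1).nn _ _
  have hdel : 0 < c.del τ := by
    rw [del_eq c hX0]
    have := zeta_pos' c hX0 τ
    positivity
  have hM : 0 < c.X / c.b1 := by positivity
  have h1 := hchern (Idx c R) (fun _ => Blk c) (bw c R) (bw_pr hpipr hglaw c R)
    (fun i a => ind (i.1 = τ) * ∑ t, ∑ p, K y (c.vx (a t) p)) (c.X / c.b1) (c.del τ / 4)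
    (c.del τ / 4) hM (by positivity)
    (fun i a => mul_nonneg (ind_nonneg _) (Finset.sum_nonneg fun t _ =>
      Finset.sum_nonneg fun p _ => hK0 _))
    (by
      intro i a
      calc ind (i.1 = τ) * ∑ t, ∑ p, K y (c.vx (a t) p) ≤ 1 * ∑ t : Fin c.T, ∑ p : c.Pos,
            1 / c.b1 := by
            apply mul_le_mul (ind_le_one _) _ _ zero_le_one
            · exact Finset.sum_le_sum fun t _ => Finset.sum_le_sum fun p _ => hK.2 _ _
            · exact Finset.sum_nonneg fun t _ => Finset.sum_nonneg fun p _ => hK0 _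
        _ = (c.T * Fintype.card c.Pos) / c.b1 := by
            simp only [Finset.sum_const, Finset.card_univ, Fintype.card_fin, nsmul_eq_mul]
            ring
        _ ≤ c.X / c.b1 := div_le_div_of_nonneg_right tp1 m1.le)
    (mean_le hnum hpipr hpks hglaw c R τ K hK y) (by linarith)
  have h2 : (fun ω : Idx c R → Blk c => c.del τ / 2 ≤ Fl c R τ (fun x => K y x) ω) =
      fun ω => c.del τ / 4 + c.del τ / 4 ≤
        ∑ i : Idx c R, ind (i.1 = τ) * ∑ t, ∑ p, K y (c.vx (ω i t) p) := by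
    funext ω
    rw [Fl_eq]
    congr 1
    ring
  rw [h2]
  refine h1.trans ?_
  have h3 : c.X ≤ (c.del τ / 4) ^ 2 / (4 * (c.del τ / 4) * (c.X / c.b1)) := by
    have e1 : (c.del τ / 4) ^ 2 / (4 * (c.del τ / 4) * (c.X / c.b1)) =
        c.del τ * c.b1 / (16 * c.X) := by
      field_simp
      norm_num
    rw [e1, le_div_iff₀ (by positivity)]
    have h4 : 1 / c.X ^ 2990 ≤ c.del τ := by
      unfold Ctx.del
      split
      · exact le_rfl
      · exact one_div_le_one_div_of_le (by positivity) (pow_le_pow_right₀ hX1 (by norm_num))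
    have h5 : 1 / c.X ^ 2990 * c.X ^ 50000 ≤ c.del τ * c.b1 :=
      mul_le_mul h4 m2 (by positivity) hdel.le
    have h6 : 1 / c.X ^ 2990 * c.X ^ 50000 = c.X ^ 47010 := by
      rw [show c.X ^ 50000 = c.X ^ 2990 * c.X ^ 47010 by rw [← pow_add]]
      field_simp
    have h7 : c.X ^ 3 ≤ c.X ^ 47010 := pow_le_pow_right₀ hX1 (by norm_num)
    have h8 : c.X * (16 * c.X) ≤ c.X ^ 3 := by
      have : c.X ^ 3 = c.X * c.X * c.X := by ring
      rw [this]
      nlinarith [mul_pos hX0 hX0]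
    linarith
  have h4 := n13 _ h3
  rw [le_div_iff₀ (by positivity)]
  exact h4

end Pool.Agent.Lib.MP_688fd0_co.TF.H82
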