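import Pool.Agent.Lib.MP_688fd0_co.TF.H82.GadfB

/-! Module GADF, third part: a good choice of options (after TE/H9/GadC). -/

namespace Pool.Agent.Lib.MP_688fd0_co.TF.H82

universe u v w

open Finset Pool.Agent.Lib.MP_688fd0_co.TE Pool.Agent.Lib.MP_688fd0_co.TE.H9

variable {G : Type u} [Group G] [Fintype G] [DecidableEq G]

/-- Vertices of R-edges. -/
def RV (c : Ctx G) {N : ℕ} (R : Resv c N) (x : G) : Prop :=
  ∃ i : Idx c R, x = i.2.1.1 ∨ x = i.2.1.2

/-- Forbidden vertices for the options of `i`. -/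
def Sb (c : Ctx G) {N : ℕ} (R : Resv c N) (i : Idx c R) (ω : Idx c R → Blk c) (x : G) : Prop :=
  RV c R x ∨ ∃ j : Idx c R, j ≠ i ∧ ∃ t p, c.vx (ω j t) p = x

/-- Valid configuration. -/
def Vd (c : Ctx G) (S : G → Prop) (γ : c.Cfg) : Prop :=
  Function.Injective (c.vx γ) ∧ ∀ p, ¬ S (c.vx γ p)

/-- The load is too large for some test. -/
def Ab (c : Ctx G) (N : ℕ) {N' : ℕ} (R : Resv c N') (ω : Idx c R → Blk c) : Prop :=
  ∃ (τ : Bool) (K : Matrix G G ℝ) (y : G), c.TK N K ∧ c.del τ / 2 ≤ Fl c R τ (fun x => K y x) ω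

theorem del_small (c : Ctx G) (hX : (10 ^ 6 : ℝ) ≤ c.X) :
    c.X * (2 * c.ζ true) + c.X * (2 * c.ζ false) + c.del true / 2 + c.del false / 2 ≤
      1 / c.X ^ 20 := by
  have hX0 : 0 < c.X := by linarith [show (0 : ℝ) < 10 ^ 6 by norm_num]
  have hX1 : 1 ≤ c.X := by linarith [show (1 : ℝ) < 10 ^ 6 by norm_num]
  have a1 : c.ζ true ≤ 1 / c.X ^ 30 := by
    unfold Ctx.ζ
    simp only [if_true]
    exact one_div_le_one_div_of_le (by positivity) (pow_le_pow_right₀ hX1 (by norm_num))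
  have a2 : c.ζ false ≤ 1 / c.X ^ 30 := by
    unfold Ctx.ζ
    simp only [Bool.false_eq_true, if_false]
    exact one_div_le_one_div_of_le (by positivity) (pow_le_pow_right₀ hX1 (by norm_num))
  have a3 : c.del true ≤ 1 / c.X ^ 30 := by
    unfold Ctx.del
    simp only [if_true]
    exact one_div_le_one_div_of_le (by positivity) (pow_le_pow_right₀ hX1 (by norm_num))
  have a4 : c.del false ≤ 1 / c.X ^ 30 := by
    unfold Ctx.del
    simp only [Bool.false_eq_true, if_false]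
    exact one_div_le_one_div_of_le (by positivity) (pow_le_pow_right₀ hX1 (by norm_num))
  have b0 : (0 : ℝ) ≤ 1 / c.X ^ 30 := by positivity
  have b1 : c.X * (2 * c.ζ true) ≤ c.X * (2 * (1 / c.X ^ 30)) := by
    apply mul_le_mul_of_nonneg_left _ hX0.le
    linarith
  have b2 : c.X * (2 * c.ζ false) ≤ c.X * (2 * (1 / c.X ^ 30)) := by
    apply mul_le_mul_of_nonneg_left _ hX0.le
    linarith
  have b3 : 1 / c.X ^ 30 ≤ c.X * (1 / c.X ^ 30) := by
    nlinarith
  have b4 : 1 / c.X ^ 20 = c.X ^ 10 * (1 / c.X ^ 30) := by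
    rw [show c.X ^ 30 = c.X ^ 10 * c.X ^ 20 by ring]
    field_simp
  have b5 : (10 : ℝ) ^ 6 * (c.X * (1 / c.X ^ 30)) ≤ c.X ^ 10 * (1 / c.X ^ 30) := by
    rw [← mul_assoc]
    apply mul_le_mul_of_nonneg_right _ b0
    have : c.X ^ 10 = c.X ^ 9 * c.X := by ring
    rw [this]
    apply mul_le_mul_of_nonneg_right _ hX0.le
    exact hX.trans (le_self_pow₀ hX1 (by norm_num))
  rw [b4]
  have b6 : 0 ≤ c.X * (1 / c.X ^ 30) := by positivity
  linarith

/-- Lightness of the forbidden set. -/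
theorem Sb_light (hnum : NUMF_S.{u}) (hpks : PKSF_S.{u}) (c : Ctx G) {N : ℕ} (hN : 2 ≤ N)
    (R : Resv c (N + 2)) (i : Idx c R) (ω : Idx c R → Blk c) (a0 : Blk c)
    (ha0 : ¬ Ab c N R (Function.update ω i a0)) (K : Matrix G G ℝ) (hK : c.TK 2 K) (y : G) :
    ∑ x, ind (Sb c R i ω x) * K y x ≤ 1 / c.X ^ 20 := by
  obtain ⟨n1, n2, n3, n6, n4, n7, n8, n9, n10, m1, m2, m3, n11, n12, n13, n14⟩ := hnum G c
  obtain ⟨k1, k2, k3, k5, k7, k8, k9, k10, k11, k12, k14⟩ := hpks G c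
  have hK0 : ∀ v, 0 ≤ K y v := fun v => (k7 2 K hK.1).nn _ _
  have hKN : c.TK N K := k10 2 N K hN hK
  have hKN2 : c.TK (N + 2) K := k10 2 (N + 2) K (by omega) hK
  unfold Ab at ha0
  push Not at ha0
  have hF : ∀ τ, Fl c R τ (fun x => K y x) (Function.update ω i a0) ≤ c.del τ / 2 :=
    fun τ => (ha0 τ K y hKN).le
  have h1 := cov (κ := (Idx c R × Bool) ⊕ (Idx c R × Fin c.T × c.Pos)) (Sb c R i ω)
    (Sum.elim (fun _ => 1) (fun q => ind (q.1 ≠ i)))
    (Sum.elim (fun q => if q.2 then q.1.2.1.1 else q.1.2.1.2) (fun q => c.vx (ω q.1 q.2.1) q.2.2))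
    (fun x => K y x)
    (by
      rintro (q | q)
      · simp
      · simpa using ind_nonneg _)
    hK0
    (by
      intro x hx
      rcases hx with ⟨j, hj⟩ | ⟨j, hj, t, p, hp⟩
      · rcases hj with hj | hj
        · exact ⟨Sum.inl (j, true), by simp, by simp [hj]⟩
        · exact ⟨Sum.inl (j, false), by simp, by simp [hj]⟩
      · refine ⟨Sum.inr (j, t, p), ?_, by simpa using hp⟩
        simp only [Sum.elim_inr]
        rw [ind_of hj])
  refine h1.trans ?_
  rw [Fintype.sum_sum_type]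
  simp only [Sum.elim_inl, Sum.elim_inr, one_mul]
  have h2 : ∑ q : Idx c R × Bool, K y (if q.2 then q.1.2.1.1 else q.1.2.1.2) ≤
      c.X * (2 * c.ζ true) + c.X * (2 * c.ζ false) := by
    rw [Fintype.sum_prod_type, Fintype.sum_sigma, Fintype.sum_bool]
    have l : ∀ τ, ∑ e : {e : G × G // e ∈ R.E τ}, ∑ b : Bool,
        K y (if b then e.1.1 else e.1.2) ≤ c.X * (2 * c.ζ τ) := by
      intro τ
      have := R.light τ K hKN2 y
      rw [← Finset.sum_coe_sort] at this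
      refine le_trans (le_of_eq ?_) this
      refine Finset.sum_congr rfl fun e _ => ?_
      rw [Fintype.sum_bool]
      simp
    exact add_le_add (l true) (l false)
  have h3 : ∑ q : Idx c R × Fin c.T × c.Pos, ind (q.1 ≠ i) * K y (c.vx (ω q.1 q.2.1) q.2.2) ≤
      c.del true / 2 + c.del false / 2 := by
    have h4 : ∑ q : Idx c R × Fin c.T × c.Pos, ind (q.1 ≠ i) * K y (c.vx (ω q.1 q.2.1) q.2.2) ≤
        Fl c R true (fun x => K y x) (Function.update ω i a0) +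
        Fl c R false (fun x => K y x) (Function.update ω i a0) := by
      rw [Fintype.sum_prod_type, Fintype.sum_sigma, Fintype.sum_bool]
      have l : ∀ τ, ∑ e : {e : G × G // e ∈ R.E τ}, ∑ q : Fin c.T × c.Pos,
          ind ((⟨τ, e⟩ : Idx c R) ≠ i) * K y (c.vx (ω ⟨τ, e⟩ q.1) q.2) ≤
          Fl c R τ (fun x => K y x) (Function.update ω i a0) := by
        intro τ
        unfold Fl
        refine Finset.sum_le_sum fun e _ => ?_
        rw [Fintype.sum_prod_type]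
        refine Finset.sum_le_sum fun t _ => Finset.sum_le_sum fun p _ => ?_
        by_cases hi : (⟨τ, e⟩ : Idx c R) = i
        · rw [ind_not (fun h => h hi), zero_mul]
          exact hK0 _
        · rw [ind_of hi, one_mul, Function.update_of_ne hi]
      exact add_le_add (l true) (l false)
    linarith [hF true, hF false]
  have h5 := del_small c n1
  linarith

/-- A single option is invalid with small probability. -/
theorem bad_le (hnum : NUMF_S.{u}) (hpks : PKSF_S.{u}) (hglaw : GLAWF_S.{u}) (c : Ctx G) {N : ℕ}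
    (R : Resv c N) (i : Idx c R) (S : G → Prop)
    (hS : ∀ (K : Matrix G G ℝ), c.TK 2 K → ∀ y, ∑ x, ind (S x) * K y x ≤ 1 / c.X ^ 20) :
    Pr (c.Γ i.1 i.2.1) (fun γ => ¬ Vd c S γ) ≤ 1 / c.X ^ 3 := by
  obtain ⟨n1, n2, n3, n6, n4, n7, n8, n9, n10, m1, m2, m3, n11, n12, n13, n14⟩ := hnum G c
  obtain ⟨tp1, tp2⟩ := TP_le hnum c
  have hX0 : 0 < c.X := by linarith [show (0 : ℝ) < 10 ^ 6 by norm_num]
  have hX1 : 1 ≤ c.X := by linarith [show (1 : ℝ) < 10 ^ 6 by norm_num]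
  have hlet := R.lett _ _ i.2.2
  obtain ⟨g1, g2, g3⟩ := hglaw G c i.1
  have hpr := g1 i.2.1 hlet
  obtain ⟨k1, k2, k3, k5, k7, k8, k9, k10, k11, k12, k14⟩ := hpks G c
  choose Np sd hNp1 hNp3 using g2
  have hNp2 : ∀ p : c.Pos, ∀ e : G × G, e.1⁻¹ * e.2 ∈ Lt c.B c.C i.1 → ∀ v,
      Pr (c.Γ i.1 e) (fun γ => c.vx γ p = v) ≤
        4 * c.X ^ 2 * Np p (if sd p then e.1 else e.2) v := by
    intro p e he v
    refine (hNp3 p e he v).trans ?_
    apply mul_le_mul_of_nonneg_right (ten_le c n1)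
    exact (k7 2 (Np p) (hNp1 p).1).nn _ _
  have h1 : Pr (c.Γ i.1 i.2.1) (fun γ => ¬ Vd c S γ) ≤
      Pr (c.Γ i.1 i.2.1) (fun γ => ∃ q : c.Pos × c.Pos, q.1 ≠ q.2 ∧ c.vx γ q.1 = c.vx γ q.2) +
      Pr (c.Γ i.1 i.2.1) (fun γ => ∃ p, S (c.vx γ p)) := by
    apply Pr_or _ hpr.nn
    intro γ hγ
    unfold Vd at hγ
    by_cases h : Function.Injective (c.vx γ)
    · right
      by_contra hc
      push Not at hc
      exact hγ ⟨h, hc⟩
    · left
      unfold Function.Injective at h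
      push Not at h
      obtain ⟨p, p', hp, hne⟩ := h
      exact ⟨(p, p'), hne, hp⟩
  have h2 : Pr (c.Γ i.1 i.2.1) (fun γ => ∃ q : c.Pos × c.Pos, q.1 ≠ q.2 ∧
      c.vx γ q.1 = c.vx γ q.2) ≤ c.X * (2 * c.X / c.b1) := by
    have h3 := Pr_le_sum (c.Γ i.1 i.2.1) hpr.nn (fun γ => ∃ q : c.Pos × c.Pos, q.1 ≠ q.2 ∧
      c.vx γ q.1 = c.vx γ q.2) (fun (q : c.Pos × c.Pos) γ => q.1 ≠ q.2 ∧
      c.vx γ q.1 = c.vx γ q.2) (fun _ h => h)
    refine h3.trans ?_
    have h4 : ∀ q : c.Pos × c.Pos, Pr (c.Γ i.1 i.2.1) (fun γ => q.1 ≠ q.2 ∧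
        c.vx γ q.1 = c.vx γ q.2) ≤ 2 * c.X / c.b1 := by
      intro q
      by_cases hq : q.1 = q.2
      · have : Pr (c.Γ i.1 i.2.1) (fun γ => q.1 ≠ q.2 ∧ c.vx γ q.1 = c.vx γ q.2) = 0 := by
          unfold Pr
          apply Finset.sum_eq_zero
          intro γ _
          rw [ind_not (fun h => h.1 hq), mul_zero]
        rw [this]
        positivity
      · refine le_trans (Pr_mono _ hpr.nn _ _ (fun γ h => h.2)) (g3 i.2.1 hlet q.1 q.2 hq)
    refine (Finset.sum_le_sum fun q _ => h4 q).trans ?_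
    rw [Finset.sum_const, Finset.card_univ, nsmul_eq_mul, Fintype.card_prod]
    push_cast
    rw [← sq]
    exact mul_le_mul_of_nonneg_right tp2 (by positivity)
  have h5 : Pr (c.Γ i.1 i.2.1) (fun γ => ∃ p, S (c.vx γ p)) ≤
      c.X * (4 * c.X ^ 2 * (1 / c.X ^ 20)) := by
    refine (Pr_le_sum (c.Γ i.1 i.2.1) hpr.nn _ (fun (p : c.Pos) γ => S (c.vx γ p))
      (fun _ h => h)).trans ?_
    have h6 : ∀ p : c.Pos, Pr (c.Γ i.1 i.2.1) (fun γ => S (c.vx γ p)) ≤
        4 * c.X ^ 2 * (1 / c.X ^ 20) := by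
      intro p
      rw [Pr_mem (c.Γ i.1 i.2.1) (fun γ => c.vx γ p) S]
      calc ∑ x, ind (S x) * Pr (c.Γ i.1 i.2.1) (fun γ => c.vx γ p = x)
          ≤ ∑ x, ind (S x) * (4 * c.X ^ 2 * Np p (if sd p then i.2.1.1 else i.2.1.2) x) :=
            Finset.sum_le_sum fun x _ => mul_le_mul_of_nonneg_left (hNp2 p _ hlet x)
              (ind_nonneg _)
        _ = 4 * c.X ^ 2 * ∑ x, ind (S x) * Np p (if sd p then i.2.1.1 else i.2.1.2) x := by
            rw [Finset.mul_sum]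
            exact Finset.sum_congr rfl fun x _ => by ring
        _ ≤ _ := mul_le_mul_of_nonneg_left (hS _ (hNp1 p) _) (by positivity)
    refine (Finset.sum_le_sum fun p _ => h6 p).trans ?_
    rw [Finset.sum_const, Finset.card_univ, nsmul_eq_mul]
    apply mul_le_mul_of_nonneg_right _ (by positivity)
    have hT1 : (1 : ℝ) ≤ c.T := by exact_mod_cast c.hT1
    have hP0 : (0 : ℝ) ≤ Fintype.card c.Pos := Nat.cast_nonneg _
    nlinarith
  have h7 : c.X * (2 * c.X / c.b1) ≤ 1 / c.X ^ 4 := by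
    have : 2 * c.X / c.b1 ≤ 2 * c.X / c.X ^ 50000 :=
      div_le_div_of_nonneg_left (by positivity) (by positivity) m2
    have h8 : 2 * c.X / c.X ^ 50000 = 2 / c.X ^ 49999 := by
      rw [show c.X ^ 50000 = c.X * c.X ^ 49999 by rw [← pow_succ']]
      field_simp
    have h9 : 2 / c.X ^ 49999 ≤ 2 / c.X ^ 6 :=
      div_le_div_of_nonneg_left (by norm_num) (by positivity)
        (pow_le_pow_right₀ hX1 (by norm_num))
    calc c.X * (2 * c.X / c.b1) ≤ c.X * (2 / c.X ^ 6) := by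
          apply mul_le_mul_of_nonneg_left _ hX0.le
          linarith
      _ = 2 / c.X ^ 5 := by
          field_simp
      _ ≤ c.X / c.X ^ 5 := by
          apply div_le_div_of_nonneg_right _ (by positivity)
          linarith [show (2 : ℝ) ≤ 10 ^ 6 by norm_num]
      _ = 1 / c.X ^ 4 := by
          field_simp
  have h10 : c.X * (4 * c.X ^ 2 * (1 / c.X ^ 20)) ≤ 1 / c.X ^ 4 := by
    have : c.X * (4 * c.X ^ 2 * (1 / c.X ^ 20)) = 4 / c.X ^ 17 := by
      field_simp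
    rw [this]
    calc 4 / c.X ^ 17 ≤ c.X / c.X ^ 17 := by
          apply div_le_div_of_nonneg_right _ (by positivity)
          linarith [show (4 : ℝ) ≤ 10 ^ 6 by norm_num]
      _ = 1 / c.X ^ 16 := by field_simp
      _ ≤ 1 / c.X ^ 4 := one_div_le_one_div_of_le (by positivity)
          (pow_le_pow_right₀ hX1 (by norm_num))
  have h11 : 1 / c.X ^ 4 + 1 / c.X ^ 4 ≤ 1 / c.X ^ 3 := by
    rw [show 1 / c.X ^ 3 = c.X * (1 / c.X ^ 4) by field_simp]
    have : (0 : ℝ) ≤ 1 / c.X ^ 4 := by positivity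
    nlinarith [show (2 : ℝ) ≤ 10 ^ 6 by norm_num]
  linarith

end Pool.Agent.Lib.MP_688fd0_co.TF.H82
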