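import Pool.Agent.Lib.MP_688fd0_co.TF.Iface5
import Pool.Agent.Lib.MP_688fd0_co.TE.H2.Abs

/-! # Theorem F, REG4F, first part: the mean (after TE/H2/Reg4) -/

namespace Pool.Agent.Lib.MP_688fd0_co.TF.H82

universe u v w

open Pool.Agent.Lib.MP_688fd0_co.TE Pool.Agent.Lib.MP_688fd0_co.TE.H2

section kap

variable {G : Type u} [Group G] [Fintype G] [DecidableEq G] {c : Ctx G} {N : ℕ} (g : Gad c N)

open scoped Classical in
/-- The coordinate of a vertex. -/
noncomputable def kap (v : G) : Option (G ⊕ (G × G)) :=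
  if ¬ g.W v then some (Sum.inl v)
  else if h : ∃ e, e ∈ g.res.E false ∧ (v = g.i false e ∨ v = g.o false e) then
    some (Sum.inr h.choose)
  else none

lemma lev_eq {m : ℕ} (lam : G ⊕ (G × G) → ZMod m) (v : G) : g.lev lam v = lvo (kap g) lam v := by
  unfold Gad.lev lvo kap
  split_ifs <;> rfl

lemma kap_of_not {v : G} (h : ¬ g.W v) : kap g v = some (Sum.inl v) := by
  unfold kap; rw [if_pos h]

lemma kap_ne_none_of_not {v : G} (h : ¬ g.W v) : kap g v ≠ none := by
  rw [kap_of_not g h]; simp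

lemma kap_none {v : G} (h : kap g v = none) :
    g.W v ∧ ¬ ∃ e, e ∈ g.res.E false ∧ (v = g.i false e ∨ v = g.o false e) := by
  unfold kap at h
  by_cases h1 : g.W v
  · rw [if_neg (not_not.2 h1)] at h
    by_cases h2 : ∃ e, e ∈ g.res.E false ∧ (v = g.i false e ∨ v = g.o false e)
    · rw [dif_pos h2] at h; cases h
    · exact ⟨h1, h2⟩
  · rw [if_pos h1] at h; cases h

lemma kap_inl {v x : G} (h : kap g v = some (Sum.inl x)) : v = x := by
  unfold kap at h
  by_cases h1 : g.W v
  · rw [if_neg (not_not.2 h1)] at h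
    by_cases h2 : ∃ e, e ∈ g.res.E false ∧ (v = g.i false e ∨ v = g.o false e)
    · rw [dif_pos h2] at h
      have := Option.some.inj h
      cases this
    · rw [dif_neg h2] at h; cases h
  · rw [if_pos h1] at h
    exact Sum.inl.inj (Option.some.inj h)

lemma kap_inr {v : G} {e : G × G} (h : kap g v = some (Sum.inr e)) :
    g.W v ∧ (v = g.i false e ∨ v = g.o false e) := by
  unfold kap at h
  by_cases h1 : g.W v
  · rw [if_neg (not_not.2 h1)] at h
    by_cases h2 : ∃ e, e ∈ g.res.E false ∧ (v = g.i false e ∨ v = g.o false e)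
    · rw [dif_pos h2] at h
      have h3 := Sum.inr.inj (Option.some.inj h)
      refine ⟨h1, ?_⟩
      have h4 := h2.choose_spec.2
      rw [h3] at h4
      exact h4
    · rw [dif_neg h2] at h; cases h
  · rw [if_pos h1] at h
    have := Option.some.inj h
    cases this

lemma kap_fib (a : G ⊕ (G × G)) : ∑ v, ind (kap g v = some a) ≤ 2 := by
  have key : ∀ p q : G, (∀ v, kap g v = some a → v = p ∨ v = q) →
      ∑ v, ind (kap g v = some a) ≤ 2 := by
    intro p q h
    have h1 : ∀ t : G, ∑ v, ind (v = t) = 1 := by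
      intro t
      rw [Finset.sum_eq_single t]
      · exact ind_of rfl
      · intro b _ hb; exact ind_not hb
      · intro h; exact absurd (Finset.mem_univ _) h
    calc ∑ v, ind (kap g v = some a) ≤ ∑ v, (ind (v = p) + ind (v = q)) := by
          refine Finset.sum_le_sum fun v _ => ?_
          by_cases hv : kap g v = some a
          · rw [ind_of hv]
            rcases h v hv with h' | h'
            · rw [ind_of h']; linarith [ind_nonneg (v = q)]
            · rw [ind_of (p := v = q) h']; linarith [ind_nonneg (v = p)]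
          · rw [ind_not hv]
            linarith [ind_nonneg (v = q), ind_nonneg (v = p)]
      _ = 2 := by rw [Finset.sum_add_distrib, h1, h1]; norm_num
  cases a with
  | inl x => exact key x x fun v hv => Or.inl (kap_inl g hv)
  | inr e => exact key (g.i false e) (g.o false e) fun v hv => (kap_inr g hv).2

lemma kap_sep {x y : G} (hxy : x ≠ y) (hW : ¬ (g.W x ∧ g.W y)) (a : G ⊕ (G × G))
    (hx : kap g x = some a) : kap g y ≠ some a := by
  intro hy
  cases a with
  | inl t => exact hxy ((kap_inl g hx).trans (kap_inl g hy).symm)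
  | inr e => exact hW ⟨(kap_inr g hx).1, (kap_inr g hy).1⟩

/-- Vertices of gadgets of kind 1. -/
def W1 (v : G) : Prop := ∃ e ∈ g.res.E true, v ∈ g.Vs true e

lemma i_mem {τ : Bool} {e : G × G} (he : e ∈ g.res.E τ) : g.i τ e ∈ g.Vs τ e := by
  have h := g.ok τ e he
  rw [← h.av]
  exact List.mem_of_mem_head? (by rw [h.ah]; rfl)

lemma o_mem {τ : Bool} {e : G × G} (he : e ∈ g.res.E τ) : g.o τ e ∈ g.Vs τ e := by
  have h := g.ok τ e he
  rw [← h.av]
  exact List.mem_of_mem_getLast? (by rw [h.al]; rfl)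

lemma RR_none {v : G} (h : g.RR v) (hk : kap g v = none) : W1 g v := by
  obtain ⟨h1, h2⟩ := kap_none g hk
  rcases h with h | ⟨τ, e, he, rfl⟩
  · exact absurd h1 h
  · cases τ with
    | false => exact absurd ⟨e, he, Or.inr rfl⟩ h2
    | true => exact ⟨e, he, o_mem g he⟩

lemma CC_none {v : G} (h : g.CC v) (hk : kap g v = none) : W1 g v := by
  obtain ⟨h1, h2⟩ := kap_none g hk
  rcases h with h | ⟨τ, e, he, rfl⟩
  · exact absurd h1 h
  · cases τ with
    | false => exact absurd ⟨e, he, Or.inl rfl⟩ h2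
    | true => exact ⟨e, he, i_mem g he⟩

end kap

section main

variable {G : Type u} [Group G] [Fintype G] [DecidableEq G] {c : Ctx G} {N : ℕ} (g : Gad c N)
  {m : ℕ} [NeZero m]

/-- Pairs joined by a possible `B`-arc. -/
def Qp (Cp : G → Prop) (x y : G) : Prop := Cp y ∧ x⁻¹ * y ∈ c.B ∧ ¬ (g.W x ∧ g.W y)

/-- The weights. -/
noncomputable def wt (Cp : G → Prop) (Lp : ZMod m → Prop) (ψ : ℝ) (l3 : ZMod m) (x y : G)
    (l : ZMod m) : ℝ :=
  (m : ℝ) / (2 * c.b) * ind (Qp g Cp x y ∧ Lp l) +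
    ψ / (c.C.card : ℝ) * ind ((¬ g.W x ∧ ¬ g.W y ∧ x⁻¹ * y ∈ c.C) ∧ l = l3)

/-- The main term. -/
noncomputable def P00 (m : ℕ) (Rp Cp : G → Prop) (z : G) : ℝ :=
  ∑ x, UM c.B z x * ind (Rp x) * (ind (kap g x ≠ none) / m) *
    (1 - ∑ y, ind (kap g y ≠ none) * (1 / c.b * ind (Qp g Cp x y)))

/-- The mean. -/
lemma mean (hP : PIPR_S.{u, 0}) (hMat : MAT_S.{u}) (Rp Cp : G → Prop) (Lp : ZMod m → Prop)
    (l1 l2 : ZMod m) (h12 : l1 ≠ l2) (hLp : ∀ l, Lp l ↔ l = l1 ∨ l = l2) (ψ : ℝ) (hψ : 0 ≤ ψ)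
    (l3 j : ZMod m) (z : G) (hR : ∀ x, Rp x → kap g x = none → W1 g x)
    (hC : ∀ x, Cp x → kap g x = none → W1 g x) (hb : 0 < c.b) (del : ℝ)
    (hl1 : ∀ z, ∑ x, ind (W1 g x) * UM c.B z x ≤ del)
    (hl2 : ∀ z, ∑ x, ind (W1 g x) * (UM c.B * UM c.B) z x ≤ del) :
    |Ex (unifW (G ⊕ (G × G) → ZMod m)) (Phi (kap g) (fun x => UM c.B z x * ind (Rp x))
      (wt g Cp Lp ψ l3) j) - P00 g m Rp Cp z| ≤
      ψ / (m : ℝ) ^ 2 + ind (Lp 0) * del + ind (j = 0) * del := by
  have hm0 : (m : ℝ) ≠ 0 := by exact_mod_cast NeZero.ne m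
  have hmpos : (0 : ℝ) < m := lt_of_le_of_ne (by positivity) (Ne.symm hm0)
  have hBds := (hMat G).1 c.B c.hB
  have hCds := (hMat G).1 c.C c.hC
  have hCc : (0 : ℝ) < c.C.card := by exact_mod_cast Finset.card_pos.2 c.hC.ne
  have hind : ∀ x y l, wt g Cp Lp ψ l3 x y l ≠ 0 → ∀ a, kap g x = some a → kap g y ≠ some a := by
    intro x y l hne
    have h1 : x ≠ y ∧ ¬ (g.W x ∧ g.W y) := by
      by_cases q1 : Qp g Cp x y
      · refine ⟨?_, q1.2.2⟩
        rintro rfl
        exact c.hB1 (by simpa using q1.2.1)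
      · by_cases q2 : ¬ g.W x ∧ ¬ g.W y ∧ x⁻¹ * y ∈ c.C
        · refine ⟨?_, fun h => q2.1 h.1⟩
          rintro rfl
          exact c.hC1 (by simpa using q2.2.2)
        · exfalso
          apply hne
          unfold wt
          rw [ind_not (fun h => q1 h.1), ind_not (fun h => q2 h.1)]
          ring
    intro a ha
    exact kap_sep g h1.1 h1.2 a ha
  rw [Ex_Phi hP _ _ _ _ hind]
  unfold P00
  rw [← Finset.sum_sub_distrib]
  -- the sum over levels
  have hsum2 : ∀ p : Prop, ∑ l : ZMod m, ind (p ∧ Lp l) = 2 * ind p := by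
    intro p
    have h1 : ∀ l : ZMod m, ind (p ∧ Lp l) = ind p * ind (l = l1) + ind p * ind (l = l2) := by
      intro l
      rw [ind_and]
      by_cases q1 : l = l1
      · have q2 : l ≠ l2 := fun h => h12 (q1.symm.trans h)
        rw [ind_of ((hLp l).2 (Or.inl q1)), ind_of q1, ind_not q2]; ring
      · by_cases q2 : l = l2
        · rw [ind_of ((hLp l).2 (Or.inr q2)), ind_not q1, ind_of q2]; ring
        · rw [ind_not (fun h => ((hLp l).1 h).elim q1 q2), ind_not q1, ind_not q2]; ring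
    have h2 : ∀ t : ZMod m, ∑ l : ZMod m, ind (l = t) = 1 := by
      intro t
      rw [Finset.sum_eq_single t]
      · exact ind_of rfl
      · intro b _ hb; exact ind_not hb
      · intro h; exact absurd (Finset.mem_univ _) h
    rw [Finset.sum_congr rfl fun l _ => h1 l, Finset.sum_add_distrib, ← Finset.mul_sum,
      ← Finset.mul_sum, h2, h2]
    ring
  have hsum1 : ∀ p : Prop, ∑ l : ZMod m, ind (p ∧ l = l3) = ind p := by
    intro p
    rw [Finset.sum_eq_single l3]
    · by_cases hp : p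
      · rw [ind_of hp, ind_of ⟨hp, rfl⟩]
      · rw [ind_not hp, ind_not (fun h => hp h.1)]
    · intro b _ hb; exact ind_not (fun h => hb h.2)
    · intro h; exact absurd (Finset.mem_univ _) h
  have hpe1 : ∀ (y : G) (l : ZMod m), kap g y ≠ none → pe (kap g) y l = 1 / m := by
    intro y l hy
    obtain ⟨a, ha⟩ := Option.ne_none_iff_exists'.1 hy
    unfold pe; rw [ha]; rfl
  have hpe0 : ∀ (y : G) (l : ZMod m), kap g y = none → pe (kap g) y l = ind (0 = l) := by
    intro y l hy
    unfold pe; rw [hy]; rfl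
  -- the error term
  have hS : ∀ x y, ∑ l, pe (kap g) y l * wt g Cp Lp ψ l3 x y l =
      ind (kap g y ≠ none) * (1 / c.b * ind (Qp g Cp x y)) +
      (ind (kap g y ≠ none) * (ψ / (m * c.C.card) *
          ind (¬ g.W x ∧ ¬ g.W y ∧ x⁻¹ * y ∈ c.C)) +
        ind (kap g y = none) * (m / (2 * c.b) * ind (Qp g Cp x y ∧ Lp 0))) := by
    intro x y
    by_cases hy : kap g y = none
    · have hy' : ¬ (kap g y ≠ none) := fun h => h hy
      rw [ind_not hy', ind_of hy, Finset.sum_eq_single 0]
      · rw [hpe0 y 0 hy, ind_of rfl]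
        unfold wt
        have hWy := (kap_none g hy).1
        rw [ind_not (p := ((¬ g.W x ∧ ¬ g.W y ∧ x⁻¹ * y ∈ c.C) ∧ (0 : ZMod m) = l3))
          (fun h => h.1.2.1 hWy)]
        ring
      · intro b _ hb
        rw [hpe0 y b hy, ind_not (Ne.symm hb), zero_mul]
      · intro h; exact absurd (Finset.mem_univ _) h
    · rw [ind_of (p := kap g y ≠ none) hy, ind_not hy]
      have h1 : ∀ l, pe (kap g) y l * wt g Cp Lp ψ l3 x y l =
          1 / (2 * c.b) * ind (Qp g Cp x y ∧ Lp l) + ψ / (m * c.C.card) *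
            ind ((¬ g.W x ∧ ¬ g.W y ∧ x⁻¹ * y ∈ c.C) ∧ l = l3) := by
        intro l
        rw [hpe1 y l hy]
        unfold wt
        field_simp
      rw [Finset.sum_congr rfl fun l _ => h1 l, Finset.sum_add_distrib, ← Finset.mul_sum,
        ← Finset.mul_sum, hsum2, hsum1]
      have : c.b ≠ 0 := hb.ne'
      field_simp
      ring
  set S0 : G → ℝ := fun x => ∑ y, ind (kap g y ≠ none) * (1 / c.b * ind (Qp g Cp x y)) with hS0
  set E : G → ℝ := fun x => ∑ y, (ind (kap g y ≠ none) * (ψ / (m * c.C.card) *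
          ind (¬ g.W x ∧ ¬ g.W y ∧ x⁻¹ * y ∈ c.C)) +
        ind (kap g y = none) * (m / (2 * c.b) * ind (Qp g Cp x y ∧ Lp 0))) with hE
  have hS1 : ∀ x, ∑ y, ∑ l, pe (kap g) y l * wt g Cp Lp ψ l3 x y l = S0 x + E x := by
    intro x
    rw [Finset.sum_congr rfl fun y _ => hS x y, Finset.sum_add_distrib]
  have hE0 : ∀ x, 0 ≤ E x := by
    intro x
    refine Finset.sum_nonneg fun y _ => add_nonneg ?_ ?_
    · exact mul_nonneg (ind_nonneg _) (mul_nonneg (by positivity) (ind_nonneg _))
    · exact mul_nonneg (ind_nonneg _) (mul_nonneg (by positivity) (ind_nonneg _))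
  have hE1 : ∀ x, E x ≤ ψ / m + m / 2 * (ind (Lp 0) * ∑ y, UM c.B x y * ind (W1 g y)) := by
    intro x
    have h1 : ψ / m = ∑ y, ψ / m * UM c.C x y := by
      rw [← Finset.mul_sum, hCds.1.row x, mul_one]
    rw [h1, Finset.mul_sum, Finset.mul_sum, ← Finset.sum_add_distrib]
    refine Finset.sum_le_sum fun y _ => add_le_add ?_ ?_
    · refine (mul_le_of_le_one_left (mul_nonneg (by positivity) (ind_nonneg _))
        (ind_le_one _)).trans ?_
      unfold UM
      have h2 : ψ / (m * c.C.card) * ind (¬ g.W x ∧ ¬ g.W y ∧ x⁻¹ * y ∈ c.C) ≤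
          ψ / (m * c.C.card) * ind (x⁻¹ * y ∈ c.C) :=
        mul_le_mul_of_nonneg_left (ind_mono fun h => h.2.2) (by positivity)
      refine h2.trans (le_of_eq ?_)
      field_simp
    · by_cases hy : kap g y = none
      · rw [ind_of hy, one_mul]
        by_cases hq : Qp g Cp x y
        · rw [ind_and, ind_of hq, one_mul, ind_of (hC y hq.1 hy)]
          unfold UM
          rw [ind_of hq.2.1]
          refine le_of_eq ?_
          unfold Ctx.b
          have : (c.B.card : ℝ) ≠ 0 := hb.ne'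
          field_simp
        · rw [ind_not (fun h => hq h.1), mul_zero]
          exact mul_nonneg (by positivity) (mul_nonneg (ind_nonneg _)
            (mul_nonneg (hBds.1.nn _ _) (ind_nonneg _)))
      · rw [ind_not hy, zero_mul]
        exact mul_nonneg (by positivity) (mul_nonneg (ind_nonneg _)
            (mul_nonneg (hBds.1.nn _ _) (ind_nonneg _)))
  have hS00 : ∀ x, 0 ≤ S0 x ∧ S0 x ≤ 1 := by
    intro x
    constructor
    · exact Finset.sum_nonneg fun y _ => mul_nonneg (ind_nonneg _)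
        (mul_nonneg (by positivity) (ind_nonneg _))
    · rw [← hBds.1.row x]
      refine Finset.sum_le_sum fun y _ => ?_
      refine (mul_le_of_le_one_left (mul_nonneg (by positivity) (ind_nonneg _))
        (ind_le_one _)).trans ?_
      unfold UM
      have h2 : 1 / c.b * ind (Qp g Cp x y) ≤ 1 / c.b * ind (x⁻¹ * y ∈ c.B) :=
        mul_le_mul_of_nonneg_left (ind_mono fun h => h.2.1) (by positivity)
      refine h2.trans (le_of_eq ?_)
      unfold Ctx.b
      ring
  -- termwise bound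
  have hterm : ∀ x, |UM c.B z x * ind (Rp x) * pe (kap g) x j *
        (1 - ∑ y, ∑ l, pe (kap g) y l * wt g Cp Lp ψ l3 x y l) -
      UM c.B z x * ind (Rp x) * (ind (kap g x ≠ none) / m) * (1 - S0 x)| ≤
      UM c.B z x * (ψ / (m : ℝ) ^ 2) + ind (Lp 0) * (UM c.B z x *
        ∑ y, UM c.B x y * ind (W1 g y)) + ind (j = 0) * (ind (W1 g x) * UM c.B z x) := by
    intro x
    have hU := hBds.1.nn z x
    have hV : 0 ≤ ∑ y, UM c.B x y * ind (W1 g y) :=
      Finset.sum_nonneg fun y _ => mul_nonneg (hBds.1.nn _ _) (ind_nonneg _)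
    have hrhs1 : 0 ≤ UM c.B z x * (ψ / (m : ℝ) ^ 2) := mul_nonneg hU (by positivity)
    have hrhs2 : 0 ≤ ind (Lp 0) * (UM c.B z x * ∑ y, UM c.B x y * ind (W1 g y)) :=
      mul_nonneg (ind_nonneg _) (mul_nonneg hU hV)
    have hrhs3 : 0 ≤ ind (j = 0) * (ind (W1 g x) * UM c.B z x) :=
      mul_nonneg (ind_nonneg _) (mul_nonneg (ind_nonneg _) hU)
    rw [hS1]
    by_cases hRx : Rp x
    · rw [ind_of hRx, mul_one]
      by_cases hx : kap g x = none
      · have hx' : ¬ (kap g x ≠ none) := fun h => h hx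
        rw [ind_not hx', hpe0 x j hx, ind_of (hR x hRx hx), one_mul]
        have hEx : E x = 0 := by
          rw [hE]
          refine Finset.sum_eq_zero fun y _ => ?_
          have hWx := (kap_none g hx).1
          rw [ind_not (p := (¬ g.W x ∧ ¬ g.W y ∧ x⁻¹ * y ∈ c.C)) (fun h => h.1 hWx)]
          by_cases hy : kap g y = none
          · have hWy := (kap_none g hy).1
            rw [ind_not (p := Qp g Cp x y ∧ Lp 0) (fun h => h.1.2.2 ⟨hWx, hWy⟩)]
            ring
          · rw [ind_not hy]; ring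
        rw [hEx, add_zero, zero_div, mul_zero, zero_mul, sub_zero, abs_mul, abs_mul,
          abs_of_nonneg hU, abs_of_nonneg (ind_nonneg _)]
        have h3 : |1 - S0 x| ≤ 1 := by
          rw [abs_le]; constructor <;> linarith [(hS00 x).1, (hS00 x).2]
        have h4 : ind ((0 : ZMod m) = j) = ind (j = 0) := by
          by_cases h : j = 0
          · rw [ind_of h, ind_of h.symm]
          · rw [ind_not h, ind_not (Ne.symm h)]
        rw [h4]
        have h5 : UM c.B z x * ind (j = 0) * |1 - S0 x| ≤ UM c.B z x * ind (j = 0) * 1 :=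
          mul_le_mul_of_nonneg_left h3 (mul_nonneg hU (ind_nonneg _))
        linarith
      · rw [ind_of (p := kap g x ≠ none) hx, hpe1 x j hx]
        have h1 : UM c.B z x * (1 / (m : ℝ)) * (1 - (S0 x + E x)) -
            UM c.B z x * (1 / (m : ℝ)) * (1 - S0 x) = - (UM c.B z x * (E x / m)) := by
          field_simp
          ring
        rw [h1, abs_neg, abs_of_nonneg (mul_nonneg hU (div_nonneg (hE0 x) hmpos.le))]
        have h2 : E x / m ≤ ψ / (m : ℝ) ^ 2 + ind (Lp 0) * ∑ y, UM c.B x y * ind (W1 g y) := by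
          have h3 : E x / m ≤ (ψ / m + m / 2 * (ind (Lp 0) *
              ∑ y, UM c.B x y * ind (W1 g y))) / m :=
            div_le_div_of_nonneg_right (hE1 x) hmpos.le
          have h4 : (ψ / m + m / 2 * (ind (Lp 0) * ∑ y, UM c.B x y * ind (W1 g y))) / m =
              ψ / (m : ℝ) ^ 2 + 1 / 2 * (ind (Lp 0) * ∑ y, UM c.B x y * ind (W1 g y)) := by
            field_simp
          have h5 : 0 ≤ ind (Lp 0) * ∑ y, UM c.B x y * ind (W1 g y) :=
            mul_nonneg (ind_nonneg _) hV
          linarith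
        have h6 := mul_le_mul_of_nonneg_left h2 hU
        have h7 : UM c.B z x * (ψ / (m : ℝ) ^ 2 + ind (Lp 0) * ∑ y, UM c.B x y * ind (W1 g y)) =
            UM c.B z x * (ψ / (m : ℝ) ^ 2) + ind (Lp 0) * (UM c.B z x *
              ∑ y, UM c.B x y * ind (W1 g y)) := by ring
        linarith
    · rw [ind_not hRx]
      simp only [mul_zero, zero_mul, sub_zero, abs_zero]
      linarith
  refine (Finset.abs_sum_le_sum_abs _ _).trans ?_
  refine (Finset.sum_le_sum fun x _ => hterm x).trans ?_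
  rw [Finset.sum_add_distrib, Finset.sum_add_distrib, ← Finset.sum_mul, hBds.1.row z, one_mul,
    ← Finset.mul_sum, ← Finset.mul_sum]
  have e1 : ∑ x, UM c.B z x * ∑ y, UM c.B x y * ind (W1 g y) =
      ∑ y, ind (W1 g y) * (UM c.B * UM c.B) z y := by
    simp only [Matrix.mul_apply, Finset.mul_sum]
    rw [Finset.sum_comm]
    exact Finset.sum_congr rfl fun x _ => Finset.sum_congr rfl fun y _ => by ring
  rw [e1]
  have e2 := mul_le_mul_of_nonneg_left (hl2 z) (ind_nonneg (Lp 0))
  have e3 := mul_le_mul_of_nonneg_left (hl1 z) (ind_nonneg (j = 0))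
  linarith

end main

end Pool.Agent.Lib.MP_688fd0_co.TF.H82
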