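import Pool.Agent.Lib.MP_688fd0_co.TF.H82.Reg4fa

/-! # Theorem F, REG4F, second part: deviations (after TE/H2/Reg4b) -/

namespace Pool.Agent.Lib.MP_688fd0_co.TF.H82

universe u v w

open Pool.Agent.Lib.MP_688fd0_co.TE Pool.Agent.Lib.MP_688fd0_co.TE.H2

variable {G : Type u} [Group G] [Fintype G] [DecidableEq G] {c : Ctx G} {N : ℕ} (g : Gad c N)
  {m : ℕ} [NeZero m]

lemma Phi_dev (hMCD : MCD_S.{u, 0}) (hMat : MAT_S.{u}) (Rp Cp : G → Prop) (Lp : ZMod m → Prop)
    (ψ : ℝ) (hψ : 0 ≤ ψ) (hψ1 : ψ ≤ 1) (l3 j : ZMod m) (z : G) (hb : 0 < c.b)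
    (hm : (4 : ℝ) ≤ m) (d : ℝ) (hd : 0 < d) :
    Pr (unifW (G ⊕ (G × G) → ZMod m)) (fun lam => d ≤ |Phi (kap g)
        (fun x => UM c.B z x * ind (Rp x)) (wt g Cp Lp ψ l3) j lam -
      Ex (unifW (G ⊕ (G × G) → ZMod m)) (Phi (kap g) (fun x => UM c.B z x * ind (Rp x))
        (wt g Cp Lp ψ l3) j)|) ≤ 2 * Real.exp (-(d ^ 2 * c.b / (16 * (m : ℝ) ^ 2))) := by
  have hBds := (hMat G).1 c.B c.hB
  have hCds := (hMat G).1 c.C c.hC
  have hBle : ∀ x y, UM c.B x y ≤ 1 / c.b := (hMat G).2.2.2.2.2.2.2 c.B c.hB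
  have hmpos : (0 : ℝ) < m := by linarith
  set A : G → ℝ := fun x => UM c.B z x * ind (Rp x) with hA
  have hA0 : ∀ x, 0 ≤ A x := fun x => mul_nonneg (hBds.1.nn _ _) (ind_nonneg _)
  have hA1 : ∀ x, A x ≤ UM c.B z x := fun x =>
    mul_le_of_le_one_right (hBds.1.nn _ _) (ind_le_one _)
  set wm : G → G → ℝ := fun x y => m / 2 * UM c.B x y + ψ * UM c.C x y with hwm
  have hw0 : ∀ x y l, 0 ≤ wt g Cp Lp ψ l3 x y l := by
    intro x y l
    unfold wt
    exact add_nonneg (mul_nonneg (by positivity) (ind_nonneg _))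
      (mul_nonneg (by positivity) (ind_nonneg _))
  have hw1 : ∀ x y l, wt g Cp Lp ψ l3 x y l ≤ wm x y := by
    intro x y l
    rw [hwm]
    unfold wt UM
    refine add_le_add ?_ ?_
    · have h2 : (m : ℝ) / (2 * c.b) * ind (Qp g Cp x y ∧ Lp l) ≤
          (m : ℝ) / (2 * c.b) * ind (x⁻¹ * y ∈ c.B) :=
        mul_le_mul_of_nonneg_left (ind_mono fun h => h.1.2.1) (by positivity)
      refine h2.trans (le_of_eq ?_)
      unfold Ctx.b
      have : (c.B.card : ℝ) ≠ 0 := hb.ne'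
      field_simp
    · have h2 : ψ / (c.C.card : ℝ) * ind ((¬ g.W x ∧ ¬ g.W y ∧ x⁻¹ * y ∈ c.C) ∧ l = l3) ≤
          ψ / (c.C.card : ℝ) * ind (x⁻¹ * y ∈ c.C) :=
        mul_le_mul_of_nonneg_left (ind_mono fun h => h.1.2.2) (by positivity)
      refine h2.trans (le_of_eq ?_)
      ring
  have hM : ∀ x, ∑ y, wm x y ≤ (m : ℝ) / 2 + 1 := by
    intro x
    rw [hwm]
    simp only [Finset.sum_add_distrib, ← Finset.mul_sum]
    rw [hBds.1.row x, hCds.1.row x]
    linarith
  have hlip := Phi_lip (kap g) A (wt g Cp Lp ψ l3) wm _ j hA0 hw0 hw1 hM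
  have hwm0 : ∀ x y, 0 ≤ wm x y := fun x y => (hw0 x y 0).trans (hw1 x y 0)
  have hDv0 : ∀ v, 0 ≤ (1 + ((m : ℝ) / 2 + 1)) * A v + ∑ x, A x * wm x v := by
    intro v
    exact add_nonneg (mul_nonneg (by positivity) (hA0 v))
      (Finset.sum_nonneg fun x _ => mul_nonneg (hA0 x) (hwm0 _ _))
  have hsplit : ∀ v, ∑ x, A x * wm x v = m / 2 * ∑ x, A x * UM c.B x v +
      ψ * ∑ x, A x * UM c.C x v := by
    intro v
    rw [hwm, Finset.mul_sum, Finset.mul_sum, ← Finset.sum_add_distrib]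
    exact Finset.sum_congr rfl fun x _ => by ring
  have hb0 : 0 < 1 / c.b := by positivity
  have k1 : ∀ v, ∑ x, A x * UM c.B x v ≤ 1 / c.b := by
    intro v
    calc ∑ x, A x * UM c.B x v ≤ ∑ x, UM c.B z x * (1 / c.b) :=
          Finset.sum_le_sum fun x _ => mul_le_mul (hA1 x) (hBle x v) (hBds.1.nn _ _)
            (hBds.1.nn _ _)
      _ = 1 / c.b := by rw [← Finset.sum_mul, hBds.1.row z, one_mul]
  have k2 : ∀ v, ∑ x, A x * UM c.C x v ≤ 1 / c.b := by
    intro v
    calc ∑ x, A x * UM c.C x v ≤ ∑ x, 1 / c.b * UM c.C x v :=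
          Finset.sum_le_sum fun x _ => mul_le_mul_of_nonneg_right ((hA1 x).trans (hBle z x))
            (hCds.1.nn _ _)
      _ = 1 / c.b := by rw [← Finset.mul_sum, hCds.1.col v, mul_one]
  have hsumA : ∑ x, A x ≤ 1 := by
    rw [← hBds.1.row z]
    exact Finset.sum_le_sum fun x _ => hA1 x
  have k3 : ∑ v, ∑ x, A x * UM c.B x v ≤ 1 := by
    rw [Finset.sum_comm]
    have : ∀ x, ∑ v, A x * UM c.B x v = A x := fun x => by
      rw [← Finset.mul_sum, hBds.1.row x, mul_one]
    rw [Finset.sum_congr rfl fun x _ => this x]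
    exact hsumA
  have k4 : ∑ v, ∑ x, A x * UM c.C x v ≤ 1 := by
    rw [Finset.sum_comm]
    have : ∀ x, ∑ v, A x * UM c.C x v = A x := fun x => by
      rw [← Finset.mul_sum, hCds.1.row x, mul_one]
    rw [Finset.sum_congr rfl fun x _ => this x]
    exact hsumA
  have hD0 : ∀ v, (1 + ((m : ℝ) / 2 + 1)) * A v + ∑ x, A x * wm x v ≤ 2 * m * (1 / c.b) := by
    intro v
    rw [hsplit]
    have h1 : (1 + ((m : ℝ) / 2 + 1)) * A v ≤ (1 + ((m : ℝ) / 2 + 1)) * (1 / c.b) :=
      mul_le_mul_of_nonneg_left ((hA1 v).trans (hBle z v)) (by positivity)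
    have h2 : (m : ℝ) / 2 * ∑ x, A x * UM c.B x v ≤ (m : ℝ) / 2 * (1 / c.b) :=
      mul_le_mul_of_nonneg_left (k1 v) (by positivity)
    have h3 : ψ * ∑ x, A x * UM c.C x v ≤ 1 * (1 / c.b) :=
      mul_le_mul hψ1 (k2 v) (Finset.sum_nonneg fun x _ => mul_nonneg (hA0 x) (hCds.1.nn _ _))
        zero_le_one
    have h4 : (3 : ℝ) * (1 / c.b) ≤ m * (1 / c.b) :=
      mul_le_mul_of_nonneg_right (by linarith) hb0.le
    linarith
  have hS0 : ∑ v, ((1 + ((m : ℝ) / 2 + 1)) * A v + ∑ x, A x * wm x v) ≤ 2 * m := by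
    rw [Finset.sum_add_distrib, ← Finset.mul_sum, Finset.sum_congr rfl fun v _ => hsplit v,
      Finset.sum_add_distrib, ← Finset.mul_sum, ← Finset.mul_sum]
    have h1 : (1 + ((m : ℝ) / 2 + 1)) * ∑ v, A v ≤ (1 + ((m : ℝ) / 2 + 1)) * 1 :=
      mul_le_mul_of_nonneg_left hsumA (by positivity)
    have h2 : (m : ℝ) / 2 * ∑ v, ∑ x, A x * UM c.B x v ≤ (m : ℝ) / 2 * 1 :=
      mul_le_mul_of_nonneg_left k3 (by positivity)
    have h3 : ψ * ∑ v, ∑ x, A x * UM c.C x v ≤ 1 * 1 :=
      mul_le_mul hψ1 k4 (Finset.sum_nonneg fun v _ => Finset.sum_nonneg fun x _ =>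
        mul_nonneg (hA0 x) (hCds.1.nn _ _)) zero_le_one
    linarith
  have := dev hMCD (kap g) (Phi (kap g) A (wt g Cp Lp ψ l3) j)
    (fun v => (1 + ((m : ℝ) / 2 + 1)) * A v + ∑ x, A x * wm x v) (2 * m * (1 / c.b)) (2 * m) d
    hDv0 hlip hD0 hS0 (kap_fib g) (by positivity) (by positivity) hd
  refine this.trans (le_of_eq ?_)
  congr 3
  field_simp
  ring

/-- Rows. -/
lemma Pr_eq (i : ZMod m) (z : G) (lam : G ⊕ (G × G) → ZMod m) :
    g.Pr (g.lev lam) i z = Phi (kap g) (fun x => UM c.B z x * ind (g.RR x))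
      (wt g g.CC (fun l => l = i + 1 ∨ l = i + 2) (1 / c.X ^ 100 * ind (i = 0)) 1) i lam := by
  unfold Gad.Pr Phi
  refine Finset.sum_congr rfl fun x _ => ?_
  dsimp only
  rw [ind_and, ← lev_eq]
  by_cases h1 : g.RR x
  · by_cases h2 : g.lev lam x = i
    · rw [ind_of h1, ind_of h2]
      unfold Gad.rx
      rw [mul_one, mul_one, mul_one]
      congr 2
      · refine Finset.sum_congr rfl fun y _ => ?_
        unfold Gad.aB Gad.aC wt
        rw [← lev_eq, h2]
        congr 1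
        · congr 1
          unfold Qp
          congr 1
          apply propext
          constructor
          · rintro ⟨-, a2, a3, a4, a5⟩
            exact ⟨⟨a2, a3, a4⟩, a5⟩
          · rintro ⟨⟨a2, a3, a4⟩, a5⟩
            exact ⟨h1, a2, a3, a4, a5⟩
        · by_cases h0 : i = 0
          · rw [ind_of h0, mul_one]
            congr 2
            apply propext
            constructor
            · rintro ⟨a1, a2, a3, a4, a5⟩
              exact ⟨⟨a1, a2, a3⟩, a5⟩
            · rintro ⟨⟨a1, a2, a3⟩, a5⟩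
              exact ⟨a1, a2, a3, h0, a5⟩
          · rw [ind_not h0, ind_not (fun h => h0 h.2.2.2.1)]
            ring
    · rw [ind_not h2]; ring
  · rw [ind_not h1]; ring

/-- Columns. -/
lemma Pc_eq (i : ZMod m) (z : G) (lam : G ⊕ (G × G) → ZMod m) :
    g.Pc (g.lev lam) i z = Phi (kap g) (fun x => UM c.B z x * ind (g.CC x))
      (wt g g.RR (fun l => l = i ∨ l = i - 1) (1 / c.X ^ 100 * ind (i = 0)) 0) (i + 1) lam := by
  have hsB : ∀ x y : G, x⁻¹ * y ∈ c.B ↔ y⁻¹ * x ∈ c.B := by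
    intro x y
    constructor
    · intro h; have := c.hB.inv _ h; simpa using this
    · intro h; have := c.hB.inv _ h; simpa using this
  have hsC : ∀ x y : G, x⁻¹ * y ∈ c.C ↔ y⁻¹ * x ∈ c.C := by
    intro x y
    constructor
    · intro h; have := c.hC.inv _ h; simpa using this
    · intro h; have := c.hC.inv _ h; simpa using this
  unfold Gad.Pc Phi
  refine Finset.sum_congr rfl fun y _ => ?_
  dsimp only
  rw [ind_and, ← lev_eq]
  by_cases h1 : g.CC y
  · by_cases h2 : g.lev lam y = i + 1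
    · rw [ind_of h1, ind_of h2]
      unfold Gad.ry
      rw [mul_one, mul_one, mul_one]
      congr 2
      · refine Finset.sum_congr rfl fun x _ => ?_
        unfold Gad.aB Gad.aC wt
        rw [← lev_eq, h2]
        have e1 : (i + 1 = g.lev lam x + 1 ∨ i + 1 = g.lev lam x + 2) ↔
            (g.lev lam x = i ∨ g.lev lam x = i - 1) := by
          constructor
          · rintro (h | h)
            · left; linear_combination -h
            · right; linear_combination -h
          · rintro (h | h)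
            · left; linear_combination -h
            · right; linear_combination -h
        congr 1
        · congr 1
          unfold Qp
          congr 1
          apply propext
          constructor
          · rintro ⟨a1, -, a3, a4, a5⟩
            exact ⟨⟨a1, (hsB x y).1 a3, fun h => a4 ⟨h.2, h.1⟩⟩, e1.1 a5⟩
          · rintro ⟨⟨a2, a3, a4⟩, a5⟩
            exact ⟨a2, h1, (hsB x y).2 a3, fun h => a4 ⟨h.2, h.1⟩, e1.2 a5⟩
        · by_cases h0 : i = 0
          · rw [ind_of h0, mul_one]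
            congr 2
            apply propext
            constructor
            · rintro ⟨a1, a2, a3, a4, a5⟩
              exact ⟨⟨a2, a1, (hsC x y).1 a3⟩, a4⟩
            · rintro ⟨⟨a1, a2, a3⟩, a5⟩
              exact ⟨a2, a1, (hsC x y).2 a3, a5, by rw [h0, zero_add]⟩
          · have h3 : ¬ (i + 1 = 1) := fun h => h0 (by linear_combination h)
            rw [ind_not h0, ind_not (fun h => h3 h.2.2.2.2)]
            ring
    · rw [ind_not h2]; ring
  · rw [ind_not h1]; ring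

end Pool.Agent.Lib.MP_688fd0_co.TF.H82
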